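import Pool.Agent.H60.ALT.Alq
import Pool.Agent.H19.FLT.Rnd

/-!
# Straight images over flat labels

`FlG`: the derivative of the label `g` in the coordinate `u` is almost constant along the line of
the window, on the cell of the point and on a segment in the direction `u`. `flg_two`: then
`x κ - k x u` differs from the own value of the label by a function of the base and the codes.
-/

set_option autoImplicit false

namespace Pool.FLN33

open Finset Real MvPolynomial
open Pool.Agent.H49.Ent Pool.Agent.H32.Dense Pool.STK Pool.KA Pool.KSAT Pool.K2S Pool.PB Pool.S6C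
  Pool.GEN Pool.RCD Pool.LA91 Pool.OWN68 Pool.ALT
open Pool.UNJ (ceI)
open Pool.GRD (LbP)
open Pool.FLT (ppt flat_val)

variable {m J : ℕ}

/-- **The derivative of the label in `u` is flat at the sample.** -/
structure FlG (F : Fam m J) (u : Fin m) (W P : ℕ) (M : ℝ) (g : MvPolynomial (Option (Fin m)) ℝ)
    (ω : F.Ω) : Prop where
  lin : ∀ t : ℝ, |t| ≤ 1 / 2 ^ W →
    |eval (fun o => bt F ω o + t * bd F ω o) (pderiv (some u) g) -
      eval (bt F ω) (pderiv (some u) g)| ≤ M
  pt : |eval (ppt F (ptr F J ω)) (pderiv (some u) g) - eval (bt F ω) (pderiv (some u) g)| ≤ M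
  seg : ∀ y : ℝ, |y - F.x ω u| ≤ 1 / 2 ^ P →
    |eval (Function.update (bt F ω) (some u) y) (pderiv (some u) g) -
      eval (bt F ω) (pderiv (some u) g)| ≤ M

/-- The own value. -/
theorem ojet0 (F : Fam m J) (κ : Fin m) (g : MvPolynomial (Option (Fin m)) ℝ) (ω : F.Ω) :
    ojet F κ 0 g ω = F.x ω κ - eval (bt F ω) g := by
  unfold ojet
  rw [jet_zero, map_sub, eval_X]
  rfl

/-- The label with the straight part removed, in the direction `u`. -/
theorem flg_one {F : Fam m J} {u : Fin m} {W P : ℕ} {M k₀ U : ℝ}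
    {g : MvPolynomial (Option (Fin m)) ℝ} {ω : F.Ω} (h : FlG F u W P M g ω)
    (hk : |eval (bt F ω) (pderiv (some u) g) - k₀| ≤ 9 * M) (hU : |F.x ω u - U| ≤ 1 / 2 ^ P) :
    |(eval (Function.update (bt F ω) (some u) U) g - k₀ * U) -
      (eval (bt F ω) g - k₀ * F.x ω u)| ≤ 10 * M / 2 ^ P := by
  classical
  have hM : 0 ≤ M := (abs_nonneg _).trans h.pt
  obtain ⟨Q, hQ⟩ : ∃ Q : MvPolynomial (Option (Fin m)) ℝ, Q = g - C k₀ * X (some u) := ⟨_, rfl⟩
  have hQe : ∀ b, eval b Q = eval b g - k₀ * b (some u) := by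
    intro b
    rw [hQ, map_sub, map_mul, eval_C, eval_X]
  have hQd : ∀ b, eval b (pderiv (some u) Q) = eval b (pderiv (some u) g) - k₀ := by
    intro b
    rw [hQ, map_sub, map_sub, pderiv_C_mul, pderiv_X_self, mul_one, eval_C]
  have h1 := upd_mv Q (bt F ω) (some u) (y := U) (h := F.x ω u) (M := 1 / 2 ^ P) (y' := 10 * M)
    (fun t ht => by
      rw [hQd]
      have h2 := h.seg t ht
      have h3 := abs_add_le (eval (Function.update (bt F ω) (some u) t) (pderiv (some u) g) -
        eval (bt F ω) (pderiv (some u) g)) (eval (bt F ω) (pderiv (some u) g) - k₀)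
      have e1 : eval (Function.update (bt F ω) (some u) t) (pderiv (some u) g) -
        eval (bt F ω) (pderiv (some u) g) + (eval (bt F ω) (pderiv (some u) g) - k₀) =
        eval (Function.update (bt F ω) (some u) t) (pderiv (some u) g) - k₀ := by ring
      rw [e1] at h3
      linarith) (by rw [abs_sub_comm]; exact hU) (by positivity)
  have e2 : Function.update (bt F ω) (some u) (F.x ω u) = bt F ω := by
    have : F.x ω u = bt F ω (some u) := rfl
    rw [this, Function.update_eq_self]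
  have e3 : bt F ω (some u) = F.x ω u := rfl
  rw [hQe, e2, hQe, Function.update_self, e3] at h1
  refine h1.trans ?_
  have e5 : |U - F.x ω u| ≤ 1 / 2 ^ P := by
    rw [abs_sub_comm]
    exact hU
  refine (mul_le_mul_of_nonneg_left e5 (by positivity)).trans (le_of_eq ?_)
  ring

/-- **Two samples with the same codes and the same base**: the straight image differs from the own
value of the label by the same number. -/
theorem flg_two {F : Fam m J} {I : Finset (Fin m)} {u κ : Fin m} {W P ρ ρ' e e' : ℕ} {M k₀ : ℝ}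
    {g h : MvPolynomial (Option (Fin m)) ℝ} {ω ω' : F.Ω} (h1 : FlG F u W P M g ω)
    (h2 : FlG F u W P M g ω') (hu : u ∉ I) (hg : DpI (insert u I) g) (hh : DpI I h)
    (hk1 : |eval (bt F ω) (pderiv (some u) g) - k₀| ≤ 9 * M)
    (hk2 : |eval (bt F ω') (pderiv (some u) g) - k₀| ≤ 9 * M)
    (hU1 : |F.x ω u - eval (bt F ω) h| ≤ 1 / 2 ^ P)
    (hU2 : |F.x ω' u - eval (bt F ω') h| ≤ 1 / 2 ^ P) (hk0 : |k₀| ≤ 2 ^ e)
    (hgl : ∀ b : Option (Fin m) → ℝ, (∀ o, |b o - bt F ω o| ≤ 1 / 2 ^ ρ) →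
      ∀ o, |eval b (pderiv o g)| ≤ 2 ^ e)
    (hhl : ∀ b : Option (Fin m) → ℝ, (∀ o, |b o - bt F ω o| ≤ 1 / 2 ^ ρ') →
      ∀ o, |eval b (pderiv o h)| ≤ 2 ^ e') (hρ : ρ + 1 ≤ P) (hρ' : ρ' ≤ J)
    (hnum : 2 ^ (e' + ρ + 1) * ((m : ℝ) + 1) ≤ 2 ^ J) (hT : F.T ω = F.T ω')
    (hI : ∀ i ∈ I, |F.x ω' i - F.x ω i| ≤ 1 / 2 ^ J) :
    |((F.x ω κ - k₀ * F.x ω u) - ojet F κ 0 g ω) - ((F.x ω' κ - k₀ * F.x ω' u) -
      ojet F κ 0 g ω')| ≤ 20 * M / 2 ^ P + 3 * ((m : ℝ) + 1) * 2 ^ (e + e') / 2 ^ J := by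
  classical
  have pJ : (0 : ℝ) < 2 ^ J := by positivity
  have ht : F.t ω' = F.t ω := by
    unfold Fam.t
    rw [hT]
  have a1 := flg_one h1 hk1 hU1
  have a2 := flg_one h2 hk2 hU2
  obtain ⟨b, hb⟩ : ∃ b, b = bt F ω := ⟨_, rfl⟩
  obtain ⟨b', hb'⟩ : ∃ b', b' = bt F ω' := ⟨_, rfl⟩
  have hbn : b' none = b none := by
    rw [hb, hb']
    exact ht
  have hbI : ∀ i ∈ I, |b' (some i) - b (some i)| ≤ 1 / 2 ^ J := by
    intro i hi
    rw [hb, hb']
    exact hI i hi
  have hbu : b (some u) = F.x ω u := by rw [hb]; rfl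
  rw [← hb] at a1 hgl hhl hU1
  rw [← hb'] at a2 hU2
  obtain ⟨U, hU⟩ : ∃ U, U = eval b h := ⟨_, rfl⟩
  obtain ⟨U', hU'⟩ : ∃ U', U' = eval b' h := ⟨_, rfl⟩
  rw [← hU] at a1 hU1
  rw [← hU'] at a2 hU2
  have hm : (0 : ℝ) ≤ m := Nat.cast_nonneg m
  -- the values of `u`
  have hΔ : |U' - U| ≤ 2 ^ e' * (((m : ℝ) + 1) * (1 / 2 ^ J)) := by
    obtain ⟨c, hc⟩ : ∃ c : Option (Fin m) → ℝ, c = fun o => match o with
      | none => b none
      | some i => if i ∈ I then b' (some i) else b (some i) := ⟨_, rfl⟩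
    have hcn : c none = b none := by rw [hc]
    have hci : ∀ i ∈ I, c (some i) = b' (some i) := fun i hi => by
      rw [hc]
      exact if_pos hi
    have hci' : ∀ i, i ∉ I → c (some i) = b (some i) := fun i hi => by
      rw [hc]
      exact if_neg hi
    have e1 : U' = eval c h := by
      rw [hU']
      exact hh _ _ (by rw [hbn, hcn]) fun i hi => (hci i hi).symm
    have hcb : ∀ o, |c o - b o| ≤ 1 / 2 ^ J := by
      intro o
      rcases o with _ | i
      · rw [hcn, sub_self, abs_zero]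
        positivity
      · by_cases hi : i ∈ I
        · rw [hci i hi]
          exact hbI i hi
        · rw [hci' i hi, sub_self, abs_zero]
          positivity
    rw [e1, hU]
    have h3 := mvσ h b c (2 ^ e') fun y hy o => hhl y (fun o' =>
      ((hy o').trans (hcb o')).trans (inv_mono hρ')) o
    refine h3.trans (mul_le_mul_of_nonneg_left ?_ (by positivity))
    refine (Finset.sum_le_sum fun o _ => hcb o).trans (le_of_eq ?_)
    rw [Finset.sum_const, Finset.card_univ, Fintype.card_option, Fintype.card_fin, nsmul_eq_mul]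
    push_cast
    ring
  obtain ⟨D, hD⟩ : ∃ D : ℝ, D = 2 ^ e' * (((m : ℝ) + 1) * (1 / 2 ^ J)) := ⟨_, rfl⟩
  rw [← hD] at hΔ
  have hD0 : 0 ≤ D := by rw [hD]; positivity
  have hDρ : D ≤ 1 / 2 ^ (ρ + 1) := by
    rw [hD, le_div_iff₀ (by positivity)]
    have e1 : (2 : ℝ) ^ e' * (((m : ℝ) + 1) * (1 / 2 ^ J)) * 2 ^ (ρ + 1) =
      2 ^ (e' + ρ + 1) * ((m : ℝ) + 1) / 2 ^ J := by
      rw [pow_add (2 : ℝ) (e' + ρ) 1, pow_add (2 : ℝ) e' ρ, pow_add (2 : ℝ) ρ 1]
      field_simp
    rw [e1, div_le_one pJ]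
    exact hnum
  have hmJ : ((m : ℝ) + 1) * (1 / 2 ^ J) ≤ D := by
    rw [hD]
    exact le_mul_of_one_le_left (by positivity) (one_le_pow₀ (by norm_num))
  have hJD : (1 : ℝ) / 2 ^ J ≤ D := by
    refine le_trans ?_ hmJ
    exact le_mul_of_one_le_left (by positivity) (by linarith)
  -- the values of the label
  obtain ⟨c₁, hc₁⟩ : ∃ c₁, c₁ = Function.update b (some u) U := ⟨_, rfl⟩
  obtain ⟨c₂, hc₂⟩ : ∃ c₂ : Option (Fin m) → ℝ, c₂ = fun o => match o with
    | none => b none
    | some i => if i = u then U' else if i ∈ I then b' (some i) else b (some i) := ⟨_, rfl⟩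
  have hu2 : c₂ (some u) = U' := by rw [hc₂]; exact if_pos rfl
  have hi2 : ∀ i ∈ I, c₂ (some i) = b' (some i) := fun i hi => by
    have : i ≠ u := fun hc => hu (hc ▸ hi)
    rw [hc₂]
    show (if i = u then U' else if i ∈ I then b' (some i) else b (some i)) = _
    rw [if_neg this, if_pos hi]
  have hi2' : ∀ i, i ≠ u → i ∉ I → c₂ (some i) = b (some i) := fun i h3 hi => by
    rw [hc₂]
    show (if i = u then U' else if i ∈ I then b' (some i) else b (some i)) = _
    rw [if_neg h3, if_neg hi]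
  have hn2 : c₂ none = b none := by rw [hc₂]
  have hn1 : c₁ none = b none := by
    rw [hc₁]
    exact Function.update_of_ne (by simp) _ _
  have hu1 : c₁ (some u) = U := by rw [hc₁, Function.update_self]
  have hi1 : ∀ i, i ≠ u → c₁ (some i) = b (some i) := fun i h3 => by
    rw [hc₁]
    exact Function.update_of_ne (fun hc => h3 (Option.some.inj hc)) _ _
  have e2 : eval (Function.update b' (some u) U') g = eval c₂ g := by
    refine hg _ _ ?_ fun i hi => ?_
    · rw [Function.update_of_ne (by simp), hbn, hn2]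
    · rcases mem_insert.1 hi with h3 | h3
      · rw [h3, Function.update_self, hu2]
      · have h4 : i ≠ u := fun hc => hu (hc ▸ h3)
        rw [Function.update_of_ne (fun hc => h4 (Option.some.inj hc)), hi2 i h3]
  have hd12 : ∀ o, |c₂ o - c₁ o| ≤ if o = some u then D else 1 / 2 ^ J := by
    intro o
    rcases o with _ | i
    · rw [if_neg (by simp), hn1, hn2, sub_self, abs_zero]
      positivity
    · by_cases h3 : i = u
      · rw [h3, if_pos rfl, hu1, hu2]
        exact hΔ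
      · rw [if_neg (fun hc => h3 (Option.some.inj hc)), hi1 i h3]
        by_cases hi : i ∈ I
        · rw [hi2 i hi]
          exact hbI i hi
        · rw [hi2' i h3 hi, sub_self, abs_zero]
          positivity
  have hd12' : ∀ o, |c₂ o - c₁ o| ≤ D := fun o => (hd12 o).trans (by
    split_ifs
    · exact le_rfl
    · exact hJD)
  have hPρ : (1 : ℝ) / 2 ^ P ≤ 1 / 2 ^ (ρ + 1) := inv_mono hρ
  have hρρ : (1 : ℝ) / 2 ^ (ρ + 1) + 1 / 2 ^ (ρ + 1) = 1 / 2 ^ ρ := by
    rw [pow_succ]
    field_simp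
    norm_num
  have hc1b : ∀ o, |c₁ o - b o| ≤ 1 / 2 ^ (ρ + 1) := by
    intro o
    rcases o with _ | i
    · rw [hn1, sub_self, abs_zero]
      positivity
    · by_cases h3 : i = u
      · rw [h3, hu1, hbu, abs_sub_comm]
        exact hU1.trans hPρ
      · rw [hi1 i h3, sub_self, abs_zero]
        positivity
  have h5 := mvσ g c₁ c₂ (2 ^ e) fun y hy o => hgl y (fun o' => by
    have e3 : y o' - b o' = (y o' - c₁ o') + (c₁ o' - b o') := by ring
    rw [e3]
    refine (abs_add_le _ _).trans ?_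
    rw [← hρρ]
    exact add_le_add (((hy o').trans (hd12' o')).trans hDρ) (hc1b o')) o
  have h6 : ∑ o, |c₂ o - c₁ o| ≤ ((m : ℝ) + 1) * (1 / 2 ^ J) + D := by
    refine (Finset.sum_le_sum fun o _ => hd12 o).trans ?_
    have e3 : ∀ o : Option (Fin m), (if o = some u then D else 1 / 2 ^ J) ≤
        1 / 2 ^ J + (if o = some u then D else 0) := by
      intro o
      split_ifs
      · have : (0 : ℝ) ≤ 1 / 2 ^ J := by positivity
        linarith
      · rw [add_zero]
    refine (Finset.sum_le_sum fun o _ => e3 o).trans ?_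
    rw [Finset.sum_add_distrib, Finset.sum_ite_eq' univ (some u), if_pos (mem_univ _),
      Finset.sum_const, Finset.card_univ, Fintype.card_option, Fintype.card_fin, nsmul_eq_mul]
    push_cast
    exact le_rfl
  have h7 : |eval c₂ g - eval c₁ g| ≤ 2 ^ e * (2 * D) :=
    h5.trans (mul_le_mul_of_nonneg_left (by linarith) (by positivity))
  have h8 : |k₀ * U' - k₀ * U| ≤ 2 ^ e * D := by
    rw [← mul_sub, abs_mul]
    exact mul_le_mul hk0 hΔ (abs_nonneg _) (by positivity)
  have e4 : 3 * ((m : ℝ) + 1) * 2 ^ (e + e') / 2 ^ J = 2 ^ e * (2 * D) + 2 ^ e * D := by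
    rw [hD, pow_add]
    ring
  have e5 : 20 * M / 2 ^ P = 10 * M / 2 ^ P + 10 * M / 2 ^ P := by ring
  rw [ojet0, ojet0, e4, e5, ← hb, ← hb']
  rw [← hc₁] at a1
  rw [e2] at a2
  have a3 := abs_le.1 a1
  have a4 := abs_le.1 a2
  have a5 := abs_le.1 h7
  have a6 := abs_le.1 h8
  rw [abs_le]
  constructor <;> linarith [a3.1, a3.2, a4.1, a4.2, a5.1, a5.2, a6.1, a6.2]

end Pool.FLN33
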