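import Pool.Agent.H33.FLN.Fam
import Pool.Agent.H45.EXA.ExvB

/-!
# The rows of the straight image over a flat label

`img_row`: over a natural label of the family whose derivative in `u` is flat on the cell of the
window `a`, the digits of the straight image `x κ - ka x u`, `ka` closed at `a`, are those of the
own value of the label: they are deficient as its rows are. `img_void`: so the straight image
is not full.
-/

set_option autoImplicit false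

namespace Pool.FLN33

open Finset Real MvPolynomial
open Pool.Agent.H49.Ent Pool.Agent.H32.Dense Pool.STK Pool.KA Pool.KSAT Pool.K2S Pool.PB Pool.S6C
  Pool.GEN Pool.RCD Pool.LA91 Pool.OWN68 Pool.ALT
open Pool.UNJ (ceI)
open Pool.GRD (LbP)
open Pool.FLT (ppt flat_val)

variable {m : ℕ}

/-- The same digits of the base. -/
theorem cei_near {J : ℕ} {I : Finset (Fin m)} {x y : Fin m → ℝ}
    (h : ceI I (fun _ => J) x = ceI I (fun _ => J) y) {i : Fin m} (hi : i ∈ I) :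
    |y i - x i| ≤ 1 / 2 ^ J := by
  have h1 : ceI I (fun _ => J) x i = ceI I (fun _ => J) y i := by rw [h]
  unfold Pool.UNJ.ceI at h1
  rw [if_pos hi, if_pos hi] at h1
  have pJ : (0 : ℝ) < 2 ^ J := by positivity
  have a1 := Int.floor_le ((2 : ℝ) ^ J * x i)
  have a2 := Int.lt_floor_add_one ((2 : ℝ) ^ J * x i)
  have a3 := Int.floor_le ((2 : ℝ) ^ J * y i)
  have a4 := Int.lt_floor_add_one ((2 : ℝ) ^ J * y i)
  rw [h1] at a1 a2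
  have e1 : |y i - x i| = |2 ^ J * y i - 2 ^ J * x i| / 2 ^ J := by
    rw [← mul_sub, abs_mul, abs_of_pos pJ]
    field_simp
  rw [e1]
  refine div_le_div_of_nonneg_right ?_ pJ.le
  rw [abs_le]
  constructor <;> linarith

/-- The scales of the image. -/
theorem img_num {J : ℕ} {sb ν pu eN eu : ℝ} (hsb : 0 ≤ sb) (hν : sb ≤ ν + pu) (he0 : 0 ≤ eN)
    (he1 : 0 ≤ eu) (hm : Real.log (3 * (m + 1)) ≤ (1 - sb - eN - eu) * Real.log 2 * J) :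
    (2 : ℝ) ^ ⌊sb * J⌋₊ * (20 * (2 : ℝ) ^ (-(ν * J)) / 2 ^ ⌊pu * J⌋₊ +
      3 * ((m : ℝ) + 1) * 2 ^ (⌊eN * J⌋₊ + ⌊eu * J⌋₊) / 2 ^ J) ≤ 41 := by
  have hJ0 : (0 : ℝ) ≤ J := Nat.cast_nonneg J
  have hm0 : (0 : ℝ) ≤ m := Nat.cast_nonneg m
  have p0 : ∀ x : ℝ, (0 : ℝ) < 2 ^ x := fun x => Real.rpow_pos_of_pos (by norm_num) _
  have a0 : (2 : ℝ) ^ ⌊sb * J⌋₊ ≤ 2 ^ (sb * J) := p2_le (mul_nonneg hsb hJ0)
  have a1 := ip2_le (pu * J)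
  have a3 : (2 : ℝ) ^ ⌊eN * J⌋₊ ≤ 2 ^ (eN * J) := p2_le (mul_nonneg he0 hJ0)
  have a4 : (2 : ℝ) ^ ⌊eu * J⌋₊ ≤ 2 ^ (eu * J) := p2_le (mul_nonneg he1 hJ0)
  have b1 : (2 : ℝ) ^ (sb * J) * (20 * (2 : ℝ) ^ (-(ν * J)) / 2 ^ ⌊pu * J⌋₊) ≤ 40 := by
    calc (2 : ℝ) ^ (sb * J) * (20 * (2 : ℝ) ^ (-(ν * J)) / 2 ^ ⌊pu * J⌋₊) =
          20 * (2 ^ (sb * J) * 2 ^ (-(ν * J))) * (1 / 2 ^ ⌊pu * J⌋₊) := by ring
      _ ≤ 20 * (2 ^ (sb * J) * 2 ^ (-(ν * J))) * (2 * 2 ^ (-(pu * J))) :=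
          mul_le_mul_of_nonneg_left a1 (by positivity)
      _ = 40 * 2 ^ (sb * J + -(ν * J) + -(pu * J)) := by
          rw [Real.rpow_add (by norm_num), Real.rpow_add (by norm_num)]
          ring
      _ ≤ 40 * 1 := by
          refine mul_le_mul_of_nonneg_left ?_ (by norm_num)
          refine Real.rpow_le_one_of_one_le_of_nonpos (by norm_num) ?_
          have := mul_le_mul_of_nonneg_right hν hJ0
          linarith
      _ = 40 := mul_one 40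
  have eJ : (2 : ℝ) ^ J = 2 ^ (J : ℝ) := (Real.rpow_natCast 2 J).symm
  have b2 : (2 : ℝ) ^ (sb * J) * (3 * ((m : ℝ) + 1) * 2 ^ (⌊eN * J⌋₊ + ⌊eu * J⌋₊) / 2 ^ J) ≤ 1 := by
    calc (2 : ℝ) ^ (sb * J) * (3 * ((m : ℝ) + 1) * 2 ^ (⌊eN * J⌋₊ + ⌊eu * J⌋₊) / 2 ^ J)
        = 3 * ((m : ℝ) + 1) * (2 ^ (sb * J) * (2 ^ ⌊eN * J⌋₊ * 2 ^ ⌊eu * J⌋₊)) / 2 ^ J := by
          rw [pow_add]
          ring
      _ ≤ 3 * ((m : ℝ) + 1) * (2 ^ (sb * J) * (2 ^ (eN * J) * 2 ^ (eu * J))) / 2 ^ J := by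
          refine div_le_div_of_nonneg_right ?_ (by positivity)
          refine mul_le_mul_of_nonneg_left ?_ (by positivity)
          refine mul_le_mul_of_nonneg_left ?_ (by positivity)
          exact mul_le_mul a3 a4 (by positivity) (by positivity)
      _ = 3 * ((m : ℝ) + 1) * 2 ^ (-((1 - sb - eN - eu) * J)) := by
          rw [eJ, mul_div_assoc]
          congr 1
          rw [← Real.rpow_add (by norm_num), ← Real.rpow_add (by norm_num),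
            ← Real.rpow_sub (by norm_num)]
          congr 1
          ring
      _ ≤ 1 := by
          rw [Real.rpow_neg (by norm_num), ← div_eq_mul_inv, div_le_one (p0 _), ← exp_p2]
          calc (3 * ((m : ℝ) + 1)) = Real.exp (Real.log (3 * (m + 1))) :=
                (Real.exp_log (by positivity)).symm
            _ ≤ Real.exp ((1 - sb - eN - eu) * J * Real.log 2) := Real.exp_le_exp.2 (by linarith)
  refine (mul_le_mul_of_nonneg_right a0 (by positivity)).trans ?_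
  rw [mul_add]
  linarith

/-- The radii of the image. -/
theorem img_rad {J : ℕ} {uN eu : ℝ} (h0 : 0 ≤ eu)
    (hm : Real.log (4 * (m + 1)) ≤ (1 - max uN 0 - eu) * Real.log 2 * J) :
    (2 : ℝ) ^ (⌊eu * J⌋₊ + ⌊uN * J⌋₊ + 1) * ((m : ℝ) + 1) ≤ 2 ^ J := by
  have hJ0 : (0 : ℝ) ≤ J := Nat.cast_nonneg J
  have hm0 : (0 : ℝ) ≤ m := Nat.cast_nonneg m
  have p0 : ∀ x : ℝ, (0 : ℝ) < 2 ^ x := fun x => Real.rpow_pos_of_pos (by norm_num) _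
  have a3 : (2 : ℝ) ^ ⌊eu * J⌋₊ ≤ 2 ^ (eu * J) := p2_le (mul_nonneg h0 hJ0)
  have a4 : (2 : ℝ) ^ ⌊uN * J⌋₊ ≤ 2 ^ (max uN 0 * J) := by
    refine le_trans ?_ (p2_le (mul_nonneg (le_max_right uN 0) hJ0))
    refine pow_le_pow_right₀ (by norm_num) (Nat.floor_le_floor ?_)
    exact mul_le_mul_of_nonneg_right (le_max_left _ _) hJ0
  have eJ : (2 : ℝ) ^ J = 2 ^ (J : ℝ) := (Real.rpow_natCast 2 J).symm
  calc (2 : ℝ) ^ (⌊eu * J⌋₊ + ⌊uN * J⌋₊ + 1) * ((m : ℝ) + 1)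
      = 2 * (m + 1) * (2 ^ ⌊eu * J⌋₊ * 2 ^ ⌊uN * J⌋₊) := by
        rw [pow_add, pow_add, pow_one]
        ring
    _ ≤ 2 * (m + 1) * (2 ^ (eu * J) * 2 ^ (max uN 0 * J)) := by
        refine mul_le_mul_of_nonneg_left ?_ (by positivity)
        exact mul_le_mul a3 a4 (by positivity) (by positivity)
    _ = 2 * (m + 1) * 2 ^ (eu * J + max uN 0 * J) := by rw [Real.rpow_add (by norm_num)]
    _ ≤ Real.exp (Real.log (4 * (m + 1))) * 2 ^ (eu * J + max uN 0 * J) := by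
        refine mul_le_mul_of_nonneg_right ?_ (p0 _).le
        rw [Real.exp_log (by positivity)]
        linarith
    _ ≤ Real.exp ((1 - max uN 0 - eu) * J * Real.log 2) * 2 ^ (eu * J + max uN 0 * J) := by
        refine mul_le_mul_of_nonneg_right (Real.exp_le_exp.2 (by linarith)) (p0 _).le
    _ = 2 ^ J := by
        rw [exp_p2, eJ, ← Real.rpow_add (by norm_num)]
        congr 1
        ring

/-- **The rows of the straight image over a flat label.** -/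
theorem img_row {S : PCl m} {Ψ : Fml m} {c : ℕ → Fin m} {r₀ : ℕ} {κ : Fin m} {D : ℕ}
    {w v a p q r n h d p₁ p₂ eN uN pN : ℝ}
    (hpos : ∀ (τ : ℝ) (J : ℕ) (F : Fam m J) (A : F.Ω → Prop), S.St τ J F A → 0 < Pe F.p A)
    (hcu : c r₀ ∉ (range r₀).image c)
    (H : AlpD S Ψ c r₀ κ D w v a p q r n h d p₁ p₂ eN uN pN) {sa sb ν eu ρu pu : ℝ} {K : ℕ}
    (h1 : p ≤ sa) (h2 : sa ≤ p + q) (h3 : sa ≤ sb) (h4 : sb ≤ p + r) (h5 : sb ≤ ν + pu)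
    (h6 : sb + eN + eu < 1) (h7 : max uN 0 < pu) (h8 : 0 ≤ eu) (h9 : ρu ≤ 1) (h10 : max uN 0 + eu < 1)
    {δ : ℝ} (hδ : 0 < δ) :
    Bas S (fun J F A => ∀ (V : Type) (z : PtT F → V) (z' : LnT F → V)
      (G : V → MvPolynomial (Option (Fin m)) ℝ),
      NzF Ψ c r₀ κ D D D w v p₁ p₂ eN uN pN J F A V z z' G →
      ∀ (V₃ : Type) (z₃ : PtT F → V₃) (z₃' : LnT F → V₃)
      (G₃ : V₃ → MvPolynomial (Option (Fin m)) ℝ),
      LbOK F ((range r₀).image c) (c r₀) K ⌊eu * J⌋₊ J ⌊a * J⌋₊ ⌊ρu * J⌋₊ ⌊pu * J⌋₊ A z₃ z₃' G₃ →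
      (∀ ω, A ω → FlG F (c r₀) ⌊a * J⌋₊ ⌊pu * J⌋₊ (2 ^ (-(ν * J))) (G (z' (slam F ⌊v * J⌋₊ ω)))
        ω) →
      ∃ B : F.Ω → Prop, Sub B A ∧ Pe F.p A ≤ 2 * Pe F.p B ∧
        ∃ (V₄ : Type) (z₄ : PtT F → V₄) (z₄' : LnT F → V₄) (ka : V₄ → ℝ),
          (∀ ω, B ω → z₄ (ptr F J ω) = z₄' (slam F ⌊a * J⌋₊ ω)) ∧
          (∀ y, |ka y| ≤ 2 ^ (eN * J)) ∧
          CH (Pool.Agent.H49.Ent.cond F.p B True)
            (fun ω => ⌊(2 : ℝ) ^ ⌊sb * J⌋₊ *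
              (F.x ω κ - ka (z₄' (slam F ⌊a * J⌋₊ ω)) * F.x ω (c r₀))⌋)
            (fun ω => (ceI ((range r₀).image c) (fun _ => J) (F.x ω),
              (z₄' (slam F ⌊a * J⌋₊ ω), F.W ω))) ≤
            ((1 - h) * (sb - sa) * Real.log 2 + d + δ) * J) := by
  classical
  obtain ⟨e₀, ρ₀, π₀, l1, l2, l3, l4⟩ := H.lb
  obtain ⟨pa₁, pa₂, ea, ua, pa, t1, t2, t3, t4, t5, t6, t7⟩ := H.top
  have hl2 : 0 < Real.log 2 := Real.log_pos one_lt_two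
  have hpN := H.pN0
  have hpp := H.pNp
  have hqr := H.qr
  have hpe := H.peN
  have hn1 := H.n1
  have heN := H.eN0
  have hsa0 : 0 ≤ sa := by linarith
  have hδ4 : 0 < δ / 4 := by linarith
  have R := Pool.GRW.bas_part (H.row0 hpos h1 h3 h4 hδ4) (two_pos : (0 : ℝ) < 2)
  have Q := Pool.GRW.bas_part (nzf_few (Kb := D) (p₁ := p₁) (p₂ := p₂) hpos t5
    (fun J F A V z z' G hG => ⟨(l4 J F A V z z' G hG).deg, (l4 J F A V z z' G hG).dep,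
      (l4 J F A V z z' G hG).cls⟩) H.wv H.va H.a1 t1 heN.le hpN (s := sa) (n := n) (by linarith)
    (by linarith) (by linarith) t4 H.uNn hδ4) (two_pos : (0 : ℝ) < 2)
  obtain ⟨J₁, hJ₁⟩ := exists_nat_ge (Real.log (3 * (m + 1)) / ((1 - sb - eN - eu) * Real.log 2))
  obtain ⟨J₂, hJ₂⟩ := exists_nat_ge (Real.log (4 * (m + 1)) / ((1 - max uN 0 - eu) * Real.log 2))
  obtain ⟨J₃, hJ₃⟩ := exists_nat_ge (Real.log 87 / (δ / 4))
  obtain ⟨J₄, hJ₄⟩ := exists_nat_ge (1 / (pu - max uN 0))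
  refine Bas.mono (J₁ + J₂ + J₃ + J₄) (((R.and Q).and (t6.and t7)).and (pos_bas hpos)) ?_
  rintro J hJ F A ⟨⟨⟨HR, HQ⟩, ⟨P₁, V₁, z₁, z₁', G₁, hG₁, hP₁⟩, ⟨P₂, V₂, z₂, z₂', G₂, hG₂, hP₂⟩⟩,
    hA⟩ V z z' G hG V₃ z₃ z₃' G₃ hG₃ hfl
  have hJ0 : (0 : ℝ) ≤ J := Nat.cast_nonneg J
  have j1 : Real.log (3 * (m + 1)) ≤ (1 - sb - eN - eu) * Real.log 2 * J := by
    have e1 : (J₁ : ℝ) ≤ J := by exact_mod_cast (by omega : J₁ ≤ J)
    have e2 := hJ₁.trans e1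
    have e3 : 0 < (1 - sb - eN - eu) * Real.log 2 := mul_pos (by linarith) hl2
    rw [div_le_iff₀ e3] at e2
    linarith
  have j2 : Real.log (4 * (m + 1)) ≤ (1 - max uN 0 - eu) * Real.log 2 * J := by
    have e1 : (J₂ : ℝ) ≤ J := by exact_mod_cast (by omega : J₂ ≤ J)
    have e2 := hJ₂.trans e1
    have e3 : 0 < (1 - max uN 0 - eu) * Real.log 2 := mul_pos (by linarith) hl2
    rw [div_le_iff₀ e3] at e2
    linarith
  have j3 : Real.log 87 ≤ δ / 4 * J := by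
    have e1 : (J₃ : ℝ) ≤ J := by exact_mod_cast (by omega : J₃ ≤ J)
    have e2 := hJ₃.trans e1
    rw [div_le_iff₀ hδ4] at e2
    linarith
  have j4 : ⌊uN * J⌋₊ + 1 ≤ ⌊pu * J⌋₊ := by
    have e1 : (J₄ : ℝ) ≤ J := by exact_mod_cast (by omega : J₄ ≤ J)
    have e2 := hJ₄.trans e1
    rw [div_le_iff₀ (by linarith)] at e2
    have e3 : ⌊uN * J⌋₊ ≤ ⌊max uN 0 * J⌋₊ :=
      Nat.floor_le_floor (mul_le_mul_of_nonneg_right (le_max_left _ _) hJ0)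
    refine (Nat.add_le_add_right e3 1).trans (Nat.le_floor ?_)
    have e4 := Nat.floor_le (mul_nonneg (le_max_right uN 0) hJ0)
    push_cast
    linarith
  obtain ⟨f1, f2⟩ := floorw H.va H.a1 J
  have hwz : ∀ ω : F.Ω, wz z' ⌊v * J⌋₊ ⌊a * J⌋₊ (slam F ⌊a * J⌋₊ ω) =
    z' (slam F ⌊v * J⌋₊ ω) := wz_slam z' f1 f2
  have hlb := hG.lb
  obtain ⟨B, b1, b2, k, k', ka, c1, c2⟩ := flat_val F A (c r₀) z (wz z' ⌊v * J⌋₊ ⌊a * J⌋₊) G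
    (M := 2 ^ (-(ν * J))) (E := 2 ^ ⌊eN * J⌋₊) hA f2 (Real.rpow_pos_of_pos (by norm_num) _)
    (fun ω hω => by rw [hwz]; exact hlb.cls ω hω)
    (fun ω hω => by
      rw [hwz]
      exact hlb.lip ω hω _ (fun o => by rw [sub_self, abs_zero]; positivity) _)
    (fun ω hω t ht => by rw [hwz]; exact (hfl ω hω).lin t ht)
    (fun ω hω => by rw [hwz]; exact (hfl ω hω).pt)
  refine ⟨B, b1, b2, V × ((V₁ × V₂) × (V₃ × ℤ)), fun y => (z y, ((z₁ y, z₂ y), (z₃ y, k y))),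
    fun x => (wz z' ⌊v * J⌋₊ ⌊a * J⌋₊ x, ((z₁' x, z₂' x), (z₃' x, k' x))), fun y => ka y.2.2.2,
    fun ω hω => ?_, fun y => ?_, ?_⟩
  · have hAω := b1 ω hω
    show (z (ptr F J ω), ((z₁ (ptr F J ω), z₂ (ptr F J ω)), (z₃ (ptr F J ω), k (ptr F J ω)))) =
      (wz z' ⌊v * J⌋₊ ⌊a * J⌋₊ (slam F ⌊a * J⌋₊ ω), ((z₁' (slam F ⌊a * J⌋₊ ω),
        z₂' (slam F ⌊a * J⌋₊ ω)), (z₃' (slam F ⌊a * J⌋₊ ω), k' (slam F ⌊a * J⌋₊ ω))))
    rw [hwz, hlb.cls ω hAω, hG₁.cls ω hAω, hG₂.cls ω hAω, hG₃.cls ω hAω, (c2 ω hω).1]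
  · refine (c1 _).trans (p2_le (mul_nonneg heN.le hJ0))
  have hB : 0 < Pe F.p B := by linarith
  have hq := isLaw_cond F.isLaw hB
  obtain ⟨q₀, hq₀⟩ : ∃ q₀, q₀ = Pool.Agent.H49.Ent.cond F.p B True := ⟨_, rfl⟩
  have hB' : ∀ ω : F.Ω, 0 < q₀ ω → B ω := fun ω hω => by
    rw [hq₀] at hω
    exact of_cond_pos hω
  have HR' := HR B b1 b2 V z z' G (NzF.hs H.hs J F A B V z z' G b1 hG)
  have HQ' := HQ B b1 b2 V z z' G (NzF.hs H.hs J F A B V z z' G b1 hG) P₁ V₁ z₁ z₁' G₁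
    (hG₁.sub b1) hP₁ P₂ V₂ z₂ z₂' G₂ (hG₂.sub b1) hP₂
  rw [← hq₀] at hq HR' HQ' ⊢
  have h0 := hq.nonneg
  obtain ⟨X, hX⟩ : ∃ X : F.Ω → ℤ, X = fun ω : F.Ω => ⌊(2 : ℝ) ^ ⌊sb * J⌋₊ *
    (F.x ω κ - ka (k' (slam F ⌊a * J⌋₊ ω)) * F.x ω (c r₀))⌋ := ⟨_, rfl⟩
  obtain ⟨Y, hY⟩ : ∃ Y : F.Ω → (Fin m → ℤ) × ((V × ((V₁ × V₂) × (V₃ × ℤ))) × (ℕ × F.ζ)),
    Y = fun ω : F.Ω => (ceI ((range r₀).image c) (fun _ => J) (F.x ω),
      ((wz z' ⌊v * J⌋₊ ⌊a * J⌋₊ (slam F ⌊a * J⌋₊ ω), ((z₁' (slam F ⌊a * J⌋₊ ω),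
        z₂' (slam F ⌊a * J⌋₊ ω)), (z₃' (slam F ⌊a * J⌋₊ ω), k' (slam F ⌊a * J⌋₊ ω)))),
        F.W ω)) := ⟨_, rfl⟩
  obtain ⟨Nt, hNt⟩ : ∃ Nt : ℝ → F.Ω → ℤ, Nt = fun (s : ℝ) (ω : F.Ω) =>
    ⌊(2 : ℝ) ^ (s * (J : ℝ)) * ojet F κ 0 (G (z' (slam F ⌊v * J⌋₊ ω))) ω⌋ := ⟨_, rfl⟩
  have hYe : ∀ ω ω' : F.Ω, Y ω = Y ω' →
      ceI ((range r₀).image c) (fun _ => J) (F.x ω) =
        ceI ((range r₀).image c) (fun _ => J) (F.x ω') ∧
      z' (slam F ⌊v * J⌋₊ ω) = z' (slam F ⌊v * J⌋₊ ω') ∧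
      (z₁' (slam F ⌊a * J⌋₊ ω) = z₁' (slam F ⌊a * J⌋₊ ω') ∧
        z₂' (slam F ⌊a * J⌋₊ ω) = z₂' (slam F ⌊a * J⌋₊ ω')) ∧
      (z₃' (slam F ⌊a * J⌋₊ ω) = z₃' (slam F ⌊a * J⌋₊ ω') ∧
        k' (slam F ⌊a * J⌋₊ ω) = k' (slam F ⌊a * J⌋₊ ω')) ∧ F.W ω = F.W ω' := by
    intro ω ω' e
    rw [hY] at e
    simp only [Prod.mk.injEq] at e
    rw [hwz, hwz] at e
    exact ⟨e.1, e.2.1.1, e.2.1.2.1, e.2.1.2.2, e.2.2⟩
  have g1 : CH q₀ X Y ≤ CH q₀ (Nt sb) Y + CH q₀ X (fun ω => (Nt sb ω, Y ω)) :=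
    CH_le_add h0 X (Nt sb) Y
  have g2 : CH q₀ (Nt sb) Y ≤ CH q₀ (Nt sa) Y + CH q₀ (Nt sb) (fun ω => (Nt sa ω, Y ω)) :=
    CH_le_add h0 (Nt sb) (Nt sa) Y
  have g3 : CH q₀ (Nt sa) Y ≤ δ / 4 * J := by
    refine le_trans ?_ HQ'
    rw [hNt]
    refine CH_mono_cond h0 fun ω ω' _ _ e => ?_
    obtain ⟨e1, e2, ⟨e3, e4⟩, -, e5⟩ := hYe ω ω' e
    have e6 : ceI ((range r₀).image c) (fun _ => ⌊n * J⌋₊) (F.x ω) =
        ceI ((range r₀).image c) (fun _ => ⌊n * J⌋₊) (F.x ω') :=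
      Pool.EXW.ceI_coarse (floor_le hn1 J) e1
    simp only [Prod.mk.injEq]
    exact ⟨⟨e3, e4⟩, e6, e2, e5⟩
  have g4 : CH q₀ (Nt sb) (fun ω => (Nt sa ω, Y ω)) ≤
      ((1 - h) * (sb - sa) * Real.log 2 + d + δ / 4) * J := by
    refine le_trans ?_ HR'
    rw [hNt]
    refine CH_mono_cond h0 fun ω ω' _ _ e => ?_
    simp only [Prod.mk.injEq] at e
    obtain ⟨e1, e2, -, -, e5⟩ := hYe ω ω' e.2
    simp only [Prod.mk.injEq]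
    exact ⟨e.1, e1, e2, e5⟩
  have g5 : CH q₀ X (fun ω => (Nt sb ω, Y ω)) ≤ Real.log 87 := by
    have e87 : (87 : ℝ) = 2 * ((43 : ℕ) : ℝ) + 1 := by norm_num
    rw [e87]
    refine CH_pair hq _ _ fun ω ω' hω hω' e => ?_
    have hBω := hB' ω hω
    have hBω' := hB' ω' hω'
    simp only [Prod.mk.injEq] at e
    obtain ⟨e0, e⟩ := e
    obtain ⟨e1, e2, -, ⟨e3, e4⟩, e5⟩ := hYe ω ω' e
    have eT : F.T ω = F.T ω' := congrArg Prod.fst e5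
    have k1 := (c2 ω hBω).2
    have k2 := (c2 ω' hBω').2
    rw [hwz] at k1 k2
    have k3 := hfl ω (b1 ω hBω)
    have k4 := hfl ω' (b1 ω' hBω')
    have u1 := hG₃.pos ω (b1 ω hBω)
    have u2 := hG₃.pos ω' (b1 ω' hBω')
    rw [← e2, ← e4] at k2
    rw [← e2] at k4
    rw [← e3] at u2
    have hins : insert (c r₀) ((range r₀).image c) = (range (r₀ + 1)).image c := by
      rw [Finset.range_add_one, Finset.image_insert]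
    have key := flg_two (κ := κ) (I := (range r₀).image c) (ρ := ⌊uN * J⌋₊)
      (ρ' := ⌊ρu * J⌋₊) (e := ⌊eN * J⌋₊) (e' := ⌊eu * J⌋₊) k3 k4 hcu
      (by rw [hins]; exact hlb.dep _) (hG₃.dep _) k1 k2 u1 u2 (c1 _)
      (hlb.lip ω (b1 ω hBω)) (hG₃.lip ω (b1 ω hBω)) j4 (floor_le h9 J)
      (img_rad h8 j2) eT (fun i hi => cei_near e1 hi)
    have hnum := img_num (m := m) (J := J) (hsa0.trans h3) h5 heN.le h8 j1
    rw [hNt] at e0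
    simp only at e0
    rw [← e2] at e0
    obtain ⟨g, hg⟩ : ∃ g, g = G (z' (slam F ⌊v * J⌋₊ ω)) := ⟨_, rfl⟩
    rw [← hg] at key e0
    have ps : (0 : ℝ) < 2 ^ (sb * J) := Real.rpow_pos_of_pos (by norm_num) _
    have ps' : (0 : ℝ) < 2 ^ ⌊sb * J⌋₊ := by positivity
    have q1 : |(2 : ℝ) ^ (sb * J) * ojet F κ 0 g ω - 2 ^ (sb * J) * ojet F κ 0 g ω'| ≤ 1 := by
      have a1 := Int.floor_le ((2 : ℝ) ^ (sb * J) * ojet F κ 0 g ω)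
      have a2 := Int.lt_floor_add_one ((2 : ℝ) ^ (sb * J) * ojet F κ 0 g ω)
      have a3 := Int.floor_le ((2 : ℝ) ^ (sb * J) * ojet F κ 0 g ω')
      have a4 := Int.lt_floor_add_one ((2 : ℝ) ^ (sb * J) * ojet F κ 0 g ω')
      rw [e0] at a1 a2
      rw [abs_le]
      constructor <;> linarith
    have q2 : (2 : ℝ) ^ ⌊sb * J⌋₊ * |ojet F κ 0 g ω - ojet F κ 0 g ω'| ≤ 1 := by
      rw [← mul_sub, abs_mul, abs_of_pos ps] at q1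
      exact (mul_le_mul_of_nonneg_right (p2_le (mul_nonneg (hsa0.trans h3) hJ0))
        (abs_nonneg _)).trans q1
    rw [hX]
    simp only
    rw [← e4]
    refine floor_sub_le (D := 42) ?_
    obtain ⟨k₀, hk₀⟩ : ∃ k₀, k₀ = ka (k' (slam F ⌊a * J⌋₊ ω)) := ⟨_, rfl⟩
    rw [← hk₀] at key ⊢
    have q3 : (F.x ω κ - k₀ * F.x ω (c r₀)) - (F.x ω' κ - k₀ * F.x ω' (c r₀)) =
        (((F.x ω κ - k₀ * F.x ω (c r₀)) - ojet F κ 0 g ω) -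
          ((F.x ω' κ - k₀ * F.x ω' (c r₀)) - ojet F κ 0 g ω')) +
        (ojet F κ 0 g ω - ojet F κ 0 g ω') := by ring
    rw [← mul_sub, abs_mul, abs_of_pos ps', q3]
    refine (mul_le_mul_of_nonneg_left ((abs_add_le _ _).trans (add_le_add key le_rfl))
      ps'.le).trans ?_
    rw [mul_add]
    push_cast
    linarith
  have g6 : CH q₀ X Y ≤ ((1 - h) * (sb - sa) * Real.log 2 + d + δ) * J := by
    have : ((1 - h) * (sb - sa) * Real.log 2 + d + δ) * J =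
      δ / 4 * J + ((1 - h) * (sb - sa) * Real.log 2 + d + δ / 4) * J + δ / 4 * J +
        δ / 4 * J := by ring
    rw [this]
    have : 0 ≤ δ / 4 * J := by positivity
    linarith
  rw [hX, hY] at g6
  exact g6

end Pool.FLN33
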