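import Pool.Agent.H33.FLN.Img
import Pool.Agent.H40.BFL.MKO
import Pool.Agent.H10.KAL.SVP

/-!
# Labels with a derivative of natural variation: the scales

`NvG`: the derivative of the label in `u` has variation at most `M` along the line of the window and
on a segment in the direction `u`. `nvg_sc`: on a shorter window it is flatter by the shorter
scale. `flg_of_nvg`: the flatness of `img_row`.
-/

set_option autoImplicit false

namespace Pool.FLN33

open Finset Real MvPolynomial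
open Pool.Agent.H49.Ent Pool.Agent.H32.Dense Pool.STK Pool.KA Pool.KSAT Pool.K2S Pool.PB Pool.S6C
  Pool.GEN Pool.RCD Pool.LA91 Pool.OWN68 Pool.ALT
open Pool.UNJ (ceI)
open Pool.GRD (LbP)
open Pool.FLT (ppt flat_val ppt_near)

variable {m J : ℕ}

/-- The variation of a polynomial on a shorter interval. -/
theorem mk_var (K : ℕ) : ∃ C : ℝ, 1 ≤ C ∧ ∀ (f : Polynomial ℝ) (R M : ℝ), f.natDegree ≤ K →
    0 < R → (∀ t : ℝ, |t| ≤ R → |f.eval t - f.eval 0| ≤ M) →
    ∀ t : ℝ, |t| ≤ R → |f.eval t - f.eval 0| ≤ C * M * (|t| / R) := by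
  obtain ⟨C, hC, HC⟩ := Pool.Agent.H40.BFL.mko_thm K
  refine ⟨C, hC, fun f R M hf hR hM t ht => ?_⟩
  have hM0 : 0 ≤ M := by
    have := hM 0 (by rw [abs_zero]; exact hR.le)
    rwa [sub_self, abs_zero] at this
  have h1 := HC (f - Polynomial.C (f.eval 0)) (-R) (2 * R) M
    ((Polynomial.natDegree_sub_C).le.trans hf) (by linarith) (fun y hy => by
      rw [Polynomial.eval_sub, Polynomial.eval_C]
      exact hM y (abs_le.2 ⟨hy.1, by linarith [hy.2]⟩))
  have h2 := (convex_Icc (-R) R).norm_image_sub_le_of_norm_deriv_le (f := fun y => f.eval y)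
    (C := C * M / (2 * R)) (x := 0) (y := t) (fun y _ => f.differentiableAt) (fun y hy => by
      rw [Polynomial.deriv, Real.norm_eq_abs]
      have := h1 y ⟨hy.1, by linarith [hy.2]⟩
      rw [Polynomial.derivative_sub, Polynomial.derivative_C, sub_zero] at this
      exact this) ⟨by linarith, hR.le⟩ (by
        have := abs_le.1 ht
        exact ⟨this.1, this.2⟩)
  rw [Real.norm_eq_abs, Real.norm_eq_abs, sub_zero] at h2
  refine h2.trans ?_
  have hCM : 0 ≤ C * M := mul_nonneg (by linarith) hM0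
  have e1 : C * M * (|t| / R) = C * M / R * |t| := by ring
  rw [e1]
  refine mul_le_mul_of_nonneg_right ?_ (abs_nonneg _)
  exact div_le_div_of_nonneg_left hCM hR (by linarith)

/-- **The derivative of the label in `u` has small variation.** -/
structure NvG (F : Fam m J) (u : Fin m) (W P : ℕ) (M : ℝ) (g : MvPolynomial (Option (Fin m)) ℝ)
    (ω : F.Ω) : Prop where
  lin : ∀ t : ℝ, |t| ≤ 1 / 2 ^ W →
    |eval (fun o => bt F ω o + t * bd F ω o) (pderiv (some u) g) -
      eval (bt F ω) (pderiv (some u) g)| ≤ M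
  seg : ∀ y : ℝ, |y - F.x ω u| ≤ 1 / 2 ^ P →
    |eval (Function.update (bt F ω) (some u) y) (pderiv (some u) g) -
      eval (bt F ω) (pderiv (some u) g)| ≤ M

theorem NvG.mono {F : Fam m J} {u : Fin m} {W W' P P' : ℕ} {M M' : ℝ}
    {g : MvPolynomial (Option (Fin m)) ℝ} {ω : F.Ω} (h : NvG F u W P M g ω) (hW : W ≤ W')
    (hP : P ≤ P') (hM : M ≤ M') : NvG F u W' P' M' g ω :=
  ⟨fun t ht => (h.lin t (ht.trans (inv_mono hW))).trans hM,
    fun y hy => (h.seg y (hy.trans (inv_mono hP))).trans hM⟩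

/-- **The scales of the variation.** -/
theorem nvg_sc (K : ℕ) : ∃ C : ℝ, 1 ≤ C ∧ ∀ {m J : ℕ} {F : Fam m J} {u : Fin m}
    {W W' P P' : ℕ} {M l : ℝ} {g : MvPolynomial (Option (Fin m)) ℝ} {ω : F.Ω}
    (_ : NvG F u W P M g ω) (_ : g.totalDegree ≤ K) (_ : W ≤ W') (_ : P ≤ P')
    (_ : (2 : ℝ) ^ W / 2 ^ W' ≤ l) (_ : (2 : ℝ) ^ P / 2 ^ P' ≤ l), NvG F u W' P' (C * M * l) g ω := by
  obtain ⟨C, hC, HC⟩ := mk_var K
  refine ⟨C, hC, fun {m J F u W W' P P' M l g ω} h hg hW hP h1 h2 => ?_⟩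
  classical
  have hM0 : 0 ≤ M := by
    have := h.lin 0 (by rw [abs_zero]; positivity)
    exact (abs_nonneg _).trans this
  have hCM : 0 ≤ C * M := mul_nonneg (by linarith) hM0
  have hdeg : (pderiv (some u) g).totalDegree ≤ K := (pd_dg g (some u)).trans hg
  refine ⟨fun t ht => ?_, fun y hy => ?_⟩
  · obtain ⟨f, f1, f2⟩ := Pool.KAL.exists_line (pderiv (some u) g) (bt F ω) (bd F ω)
    have e0 : eval (bt F ω) (pderiv (some u) g) = f.eval 0 := by
      rw [← f2]
      congr 2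
      funext o
      ring
    rw [e0, f2]
    have ht' : |t| ≤ 1 / 2 ^ W := ht.trans (inv_mono hW)
    have h3 := HC f (1 / 2 ^ W) M (f1.trans hdeg) (by positivity) (fun s hs => by
      rw [← e0, ← f2]
      exact h.lin s hs) t ht'
    refine h3.trans (mul_le_mul_of_nonneg_left ?_ hCM)
    refine le_trans ?_ h1
    have e1 : (2 : ℝ) ^ W / 2 ^ W' = 1 / 2 ^ W' / (1 / 2 ^ W) := by
      field_simp
    rw [e1]
    exact div_le_div_of_nonneg_right ht (by positivity)
  · obtain ⟨v, hv⟩ : ∃ v : Option (Fin m) → ℝ, v = fun o => if o = some u then 1 else 0 :=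
      ⟨_, rfl⟩
    obtain ⟨f, f1, f2⟩ := Pool.KAL.exists_line (pderiv (some u) g) (bt F ω) v
    have e0 : eval (bt F ω) (pderiv (some u) g) = f.eval 0 := by
      rw [← f2]
      congr 2
      funext o
      ring
    have e2 : ∀ s, eval (Function.update (bt F ω) (some u) s) (pderiv (some u) g) =
        f.eval (s - F.x ω u) := by
      intro s
      rw [← f2]
      congr 2
      funext o
      rw [hv]
      by_cases ho : o = some u
      · subst ho
        rw [Function.update_self]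
        simp only [if_true]
        have : bt F ω (some u) = F.x ω u := rfl
        rw [this]
        ring
      · rw [Function.update_of_ne ho]
        simp only [if_neg ho]
        ring
    rw [e0, e2]
    have hy' : |y - F.x ω u| ≤ 1 / 2 ^ P := hy.trans (inv_mono hP)
    have h3 := HC f (1 / 2 ^ P) M (f1.trans hdeg) (by positivity) (fun s hs => by
      have e3 := e2 (s + F.x ω u)
      rw [add_sub_cancel_right] at e3
      rw [← e0, ← e3]
      refine h.seg _ ?_
      rw [add_sub_cancel_right]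
      exact hs) _ hy'
    refine h3.trans (mul_le_mul_of_nonneg_left ?_ hCM)
    refine le_trans ?_ h2
    have e1 : (2 : ℝ) ^ P / 2 ^ P' = 1 / 2 ^ P' / (1 / 2 ^ P) := by
      field_simp
    rw [e1]
    exact div_le_div_of_nonneg_right hy (by positivity)

/-- The derivative of the label at the near point. -/
theorem ppt_var (K : ℕ) : ∃ C : ℝ, 1 ≤ C ∧ ∀ {m J : ℕ} {F : Fam m J} {u : Fin m} {ρ : ℕ} {E : ℝ}
    {g : MvPolynomial (Option (Fin m)) ℝ} {ω : F.Ω} (_ : g.totalDegree ≤ K) (_ : ρ ≤ J)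
    (_ : ∀ b : Option (Fin m) → ℝ, (∀ o, |b o - bt F ω o| ≤ 1 / 2 ^ ρ) →
      |eval b (pderiv (some u) g)| ≤ E),
    |eval (ppt F (ptr F J ω)) (pderiv (some u) g) - eval (bt F ω) (pderiv (some u) g)| ≤
      C * E * (2 ^ ρ / 2 ^ J) := by
  obtain ⟨C, hC, HC⟩ := mk_var K
  refine ⟨2 * C, by linarith, fun {m J F u ρ E g ω} hg hρ hE => ?_⟩
  have hE0 : 0 ≤ E := (abs_nonneg _).trans (hE (bt F ω) (fun o => by
    rw [sub_self, abs_zero]; positivity))
  have pJ : (0 : ℝ) < 2 ^ J := by positivity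
  have pρ : (0 : ℝ) < 2 ^ ρ := by positivity
  obtain ⟨v, hv⟩ : ∃ v : Option (Fin m) → ℝ, v = fun o =>
    (ppt F (ptr F J ω) o - bt F ω o) * (2 ^ J / 2 ^ ρ) := ⟨_, rfl⟩
  have hv1 : ∀ o, |v o| ≤ 1 / 2 ^ ρ := by
    intro o
    rw [hv]
    simp only
    rw [abs_mul, abs_of_pos (by positivity : (0 : ℝ) < 2 ^ J / 2 ^ ρ)]
    refine (mul_le_mul_of_nonneg_right (ppt_near F ω o) (by positivity)).trans (le_of_eq ?_)
    field_simp
  obtain ⟨f, f1, f2⟩ := Pool.KAL.exists_line (pderiv (some u) g) (bt F ω) v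
  have e0 : eval (bt F ω) (pderiv (some u) g) = f.eval 0 := by
    rw [← f2]
    congr 2
    funext o
    ring
  have e1 : eval (ppt F (ptr F J ω)) (pderiv (some u) g) = f.eval (2 ^ ρ / 2 ^ J) := by
    rw [← f2]
    congr 2
    funext o
    rw [hv]
    simp only
    field_simp
    ring
  have hsm : ∀ s : ℝ, |s| ≤ 1 → |f.eval s| ≤ E := by
    intro s hs
    rw [← f2]
    refine hE _ fun o => ?_
    have e2 : bt F ω o + s * v o - bt F ω o = s * v o := by ring
    rw [e2, abs_mul]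
    calc |s| * |v o| ≤ 1 * (1 / 2 ^ ρ) := mul_le_mul hs (hv1 o) (abs_nonneg _) zero_le_one
      _ = 1 / 2 ^ ρ := one_mul _
  have hs1 : (2 : ℝ) ^ ρ / 2 ^ J ≤ 1 := by
    rw [div_le_one pJ]
    exact pow_le_pow_right₀ (by norm_num) hρ
  have h3 := HC f 1 (2 * E) (f1.trans ((pd_dg g (some u)).trans hg)) one_pos (fun s hs => by
    have a1 := abs_le.1 (hsm s hs)
    have a2 := abs_le.1 (hsm 0 (by rw [abs_zero]; exact zero_le_one))
    rw [abs_le]
    constructor <;> linarith [a1.1, a1.2, a2.1, a2.2]) (2 ^ ρ / 2 ^ J) (by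
      rw [abs_of_pos (by positivity)]
      exact hs1)
  rw [e0, e1]
  refine h3.trans (le_of_eq ?_)
  rw [abs_of_pos (by positivity : (0 : ℝ) < 2 ^ ρ / 2 ^ J)]
  ring

end Pool.FLN33
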