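import Pool.Agent.H33.FLN.Void
import Pool.Agent.H33.FUL.Thr

/-!
# The rows of the label against the fullness of the straight image

`img_thr`, `scal_thr`: no event of the class has natural labels which are flat in `u`, or with a
derivative in `u` of natural variation. The fullness is from the threshold of the target.
-/

set_option autoImplicit false

namespace Pool.FLN33

open Finset Real MvPolynomial
open Pool.Agent.H49.Ent Pool.Agent.H32.Dense Pool.STK Pool.KA Pool.KSAT Pool.K2S Pool.PB Pool.S6C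
  Pool.GEN Pool.RCD Pool.OWN68 Pool.ALT
open Pool.TOP Pool.ONE
open Pool.UNJ (ceI)
open Pool.LBT (ThrOf)
open Pool.FUL33 (fulI_thr)

variable {m N : ℕ}

/-- The fullness with a small loss. -/
theorem ful_loss (hF : FZX (N + 1)) {S : PCl m} {C₀ : ℝ} (hC₀ : 0 ≤ C₀) (htm : TmC S C₀)
    {N₀ : ℚ → ℚ → ℝ} {al : ℝ} {g₀ : ℝ → ℝ} (hal : 0 < al)
    (hg₀ : ∀ ε : ℝ, 0 < ε → 0 < g₀ ε) (hM : ActM N₀ al g₀) {c : ℕ → Fin m}
    (hc : ∀ i ≤ N + 1, ∀ j ≤ N + 1, c i = c j → i = j) (hN : 0 < N) (hB : ActB N₀ S (c 0))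
    {a s : ℝ} (ha0 : 0 ≤ a) (ha1 : a < 1) (hs0 : 0 ≤ s)
    (hful : ∀ δ : ℝ, 0 < δ → ∃ w₂ u : ℝ, a < w₂ ∧ w₂ ≤ u ∧ u < a + δ ∧
      Ful S ((range N).image c) w₂ u)
    {P : ℝ → ℝ → ℝ} (hT : ThrOf (tgs (c (N + 1))) S (fun _ => P))
    (hP : ∀ μ : ℝ, 0 < μ → ∃ a' : ℝ, a < a' ∧ a' ≤ 1 ∧ P a' a' < s + μ)
    {sb eN y : ℝ} (heN : 0 ≤ eN) (h6 : sb + eN ≤ 1) (hy : y < (sb - s) * Real.log 2) :
    ∃ x L : ℝ, eN ≤ x ∧ y < L ∧ Bas S (fun J F A => ∀ (V : Type) (z : PtT F → V)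
      (z' : LnT F → V) (ka : V → ℝ),
      (∀ ω, A ω → z (ptr F J ω) = z' (slam F ⌊a * J⌋₊ ω)) →
      (∀ ω, A ω → |ka (z' (slam F ⌊a * J⌋₊ ω))| ≤ (2 : ℝ) ^ (x * J)) →
      L * J ≤ CH (Pool.Agent.H49.Ent.cond F.p A True)
        (fun ω => ⌊(2 : ℝ) ^ ⌊sb * J⌋₊ *
          (F.x ω (c (N + 1)) - ka (z' (slam F ⌊a * J⌋₊ ω)) * F.x ω (c N))⌋)
        (fun ω => (ceI ((range N).image c) (fun _ => J) (F.x ω),
          (z' (slam F ⌊a * J⌋₊ ω), F.W ω)))) := by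
  have hl2 : 0 < Real.log 2 := Real.log_pos one_lt_two
  obtain ⟨ρ, hρ⟩ : ∃ ρ : ℝ, ρ = ((sb - s) * Real.log 2 - y) / (2 * Real.log 2) := ⟨_, rfl⟩
  have hρ0 : 0 < ρ := by
    rw [hρ]
    exact div_pos (by linarith) (by linarith)
  have hρl : ρ * Real.log 2 = ((sb - s) * Real.log 2 - y) / 2 := by
    rw [hρ]
    field_simp
  have hmx : max eN 0 = eN := max_eq_left heN
  obtain ⟨e, he, HI⟩ := fulI_thr hF hC₀ htm hal hg₀ hM hc hN hB ha0 ha1 hs0 hful hT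
    hP eN (r := sb) (by rw [hmx]; linarith) hρ0
  rw [hmx] at HI
  refine ⟨eN + e, (sb - s - ρ) * Real.log 2, by linarith, ?_, HI⟩
  have e1 : (sb - s - ρ) * Real.log 2 = (sb - s) * Real.log 2 - ρ * Real.log 2 := by ring
  rw [e1, hρl]
  linarith

/-- **No flat natural labels** on any event of the class, from the threshold of the target. -/
theorem img_thr (hF : FZX (N + 1)) {S : PCl m} {C₀ : ℝ} (hC₀ : 0 ≤ C₀) (htm : TmC S C₀)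
    {N₀ : ℚ → ℚ → ℝ} {al : ℝ} {g₀ : ℝ → ℝ} (hal : 0 < al)
    (hg₀ : ∀ ε : ℝ, 0 < ε → 0 < g₀ ε) (hM : ActM N₀ al g₀) {c : ℕ → Fin m}
    (hc : ∀ i ≤ N + 1, ∀ j ≤ N + 1, c i = c j → i = j) (hN : 0 < N) (hB : ActB N₀ S (c 0))
    {Ψ : Fml m} {D : ℕ} {w v a p q r n h d p₁ p₂ eN uN pN : ℝ}
    (H : AlpD S Ψ c N (c (N + 1)) D w v a p q r n h d p₁ p₂ eN uN pN) (ha1 : a < 1)
    {s : ℝ} (hs0 : 0 ≤ s)
    (hful : ∀ δ : ℝ, 0 < δ → ∃ w₂ u : ℝ, a < w₂ ∧ w₂ ≤ u ∧ u < a + δ ∧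
      Ful S ((range N).image c) w₂ u)
    {P : ℝ → ℝ → ℝ} (hT : ThrOf (tgs (c (N + 1))) S (fun _ => P))
    (hP : ∀ μ : ℝ, 0 < μ → ∃ a' : ℝ, a < a' ∧ a' ≤ 1 ∧ P a' a' < s + μ)
    {sa sb ν eu ρu pu : ℝ} {K : ℕ}
    (h1 : p ≤ sa) (h2 : sa ≤ p + q) (h3 : sa ≤ sb) (h4 : sb ≤ p + r) (h5 : sb ≤ ν + pu)
    (h6 : sb + eN + eu < 1) (h7 : max uN 0 < pu) (h8 : 0 ≤ eu) (h9 : ρu ≤ 1)
    (h10 : max uN 0 + eu < 1) {Cu : ℝ} (hCu : 0 < Cu)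
    (hu : Bas S (fun J F A => ∃ B : F.Ω → Prop, Sub B A ∧ Pe F.p A ≤ Cu * Pe F.p B ∧
      ∃ (V₃ : Type) (z₃ : PtT F → V₃) (z₃' : LnT F → V₃)
        (G₃ : V₃ → MvPolynomial (Option (Fin m)) ℝ),
        LbOK F ((range N).image c) (c N) K ⌊eu * J⌋₊ J ⌊a * J⌋₊ ⌊ρu * J⌋₊ ⌊pu * J⌋₊ B
          z₃ z₃' G₃))
    (hend : (1 - h) * (sb - sa) * Real.log 2 + d < (sb - s) * Real.log 2) :
    Bas S (fun J F A => ∀ (V : Type) (z : PtT F → V) (z' : LnT F → V)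
      (G : V → MvPolynomial (Option (Fin m)) ℝ),
      NzF Ψ c N (c (N + 1)) D D D w v p₁ p₂ eN uN pN J F A V z z' G →
      (∀ ω, A ω → FlG F (c N) ⌊a * J⌋₊ ⌊pu * J⌋₊ (2 ^ (-(ν * J)))
        (G (z' (slam F ⌊v * J⌋₊ ω))) ω) → False) := by
  have hcu : c N ∉ (range N).image c := by
    intro hmem
    obtain ⟨i, hi, e⟩ := mem_image.1 hmem
    have h11 := mem_range.1 hi
    have := hc i (by omega) N (by omega) e
    omega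
  have hpos : ∀ (τ : ℝ) (J : ℕ) (F : Fam m J) (A : F.Ω → Prop), S.St τ J F A →
      0 < Pe F.p A := fun τ J F A h => (htm (max τ 1) J F A (lt_max_of_lt_right one_pos)
        (S.mono (le_max_left _ _) h)).1
  obtain ⟨x, L, hx, hL, HI⟩ := ful_loss hF hC₀ htm hal hg₀ hM hc hN hB (H.v0.trans H.va) ha1 hs0
    hful hT hP H.eN0.le (by linarith : sb + eN ≤ 1) hend
  exact img_ev (K := K) hpos hcu H h1 h2 h3 h4 h5 h6 h7 h8 h9 h10 hCu hu hx HI hL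

/-- **No natural labels with a derivative of natural variation** on any event of the class, from the
threshold of the target. -/
theorem scal_thr (hF : FZX (N + 1)) {S : PCl m} {C₀ : ℝ} (hC₀ : 0 ≤ C₀) (htm : TmC S C₀)
    {N₀ : ℚ → ℚ → ℝ} {al : ℝ} {g₀ : ℝ → ℝ} (hal : 0 < al)
    (hg₀ : ∀ ε : ℝ, 0 < ε → 0 < g₀ ε) (hM : ActM N₀ al g₀) {c : ℕ → Fin m}
    (hc : ∀ i ≤ N + 1, ∀ j ≤ N + 1, c i = c j → i = j) (hN : 0 < N) (hB : ActB N₀ S (c 0))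
    {Ψ : Fml m} {D : ℕ} {w v a p q r n h d p₁ p₂ eN uN pN : ℝ}
    (H : AlpD S Ψ c N (c (N + 1)) D w v a p q r n h d p₁ p₂ eN uN pN) (ha1 : a < 1)
    {s : ℝ} (hs0 : 0 ≤ s)
    (hful : ∀ δ : ℝ, 0 < δ → ∃ w₂ u : ℝ, a < w₂ ∧ w₂ ≤ u ∧ u < a + δ ∧
      Ful S ((range N).image c) w₂ u)
    {P : ℝ → ℝ → ℝ} (hT : ThrOf (tgs (c (N + 1))) S (fun _ => P))
    (hP : ∀ μ : ℝ, 0 < μ → ∃ a' : ℝ, a < a' ∧ a' ≤ 1 ∧ P a' a' < s + μ)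
    {sa sb ν₀ pv eu ρu pu : ℝ} {K : ℕ}
    (h1 : p ≤ sa) (h2 : sa ≤ p + q) (h3 : sa ≤ sb) (h4 : sb ≤ p + r) (h0 : 0 ≤ pv)
    (hpp : pv ≤ pu) (h5 : sb < ν₀ + (a - v) + pu) (h5' : sb < ν₀ + (pu - pv) + pu)
    (h6 : sb + eN + eu < 1) (h6' : sb + eN + max uN 0 < 1 + pu) (h7 : max uN 0 < pu)
    (h8 : 0 ≤ eu) (h9 : ρu ≤ 1) (h10 : max uN 0 + eu < 1) {Cu : ℝ} (hCu : 0 < Cu)
    (hu : Bas S (fun J F A => ∃ B : F.Ω → Prop, Sub B A ∧ Pe F.p A ≤ Cu * Pe F.p B ∧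
      ∃ (V₃ : Type) (z₃ : PtT F → V₃) (z₃' : LnT F → V₃)
        (G₃ : V₃ → MvPolynomial (Option (Fin m)) ℝ),
        LbOK F ((range N).image c) (c N) K ⌊eu * J⌋₊ J ⌊a * J⌋₊ ⌊ρu * J⌋₊ ⌊pu * J⌋₊ B
          z₃ z₃' G₃))
    (hend : (1 - h) * (sb - sa) * Real.log 2 + d < (sb - s) * Real.log 2) :
    Bas S (fun J F A => ∀ (V : Type) (z : PtT F → V) (z' : LnT F → V)
      (G : V → MvPolynomial (Option (Fin m)) ℝ),
      NzF Ψ c N (c (N + 1)) D D D w v p₁ p₂ eN uN pN J F A V z z' G →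
      (∀ ω, A ω → NvG F (c N) ⌊v * J⌋₊ ⌊pv * J⌋₊ (2 ^ (-(ν₀ * J)))
        (G (z' (slam F ⌊v * J⌋₊ ω))) ω) → False) := by
  have hcu : c N ∉ (range N).image c := by
    intro hmem
    obtain ⟨i, hi, e⟩ := mem_image.1 hmem
    have h11 := mem_range.1 hi
    have := hc i (by omega) N (by omega) e
    omega
  have hpos : ∀ (τ : ℝ) (J : ℕ) (F : Fam m J) (A : F.Ω → Prop), S.St τ J F A →
      0 < Pe F.p A := fun τ J F A h => (htm (max τ 1) J F A (lt_max_of_lt_right one_pos)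
        (S.mono (le_max_left _ _) h)).1
  obtain ⟨x, L, hx, hL, HI⟩ := ful_loss hF hC₀ htm hal hg₀ hM hc hN hB (H.v0.trans H.va) ha1 hs0
    hful hT hP H.eN0.le (by linarith : sb + eN ≤ 1) hend
  exact scal_ev (K := K) hpos hcu H h1 h2 h3 h4 h0 hpp h5 h5' h6 h6' h7 h8 h9 h10 hCu hu hx HI hL

end Pool.FLN33
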