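import Pool.Agent.H33.FLN.Scl

/-!
# The straight image over a label with a derivative of natural variation

`img_ev`: if the straight image is full, then no event of the class has flat natural labels.
`scal_ev`: if the straight image is full, then no event of the class has natural labels with a
derivative of natural variation at the window of the label; the image is taken at a shorter window.
`img_void`, `scal_void`: the class is empty.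
-/

set_option autoImplicit false

namespace Pool.FLN33

open Finset Real MvPolynomial
open Pool.Agent.H49.Ent Pool.Agent.H32.Dense Pool.STK Pool.KA Pool.KSAT Pool.K2S Pool.PB Pool.S6C
  Pool.GEN Pool.RCD Pool.LA91 Pool.OWN68 Pool.ALT
open Pool.UNJ (ceI)
open Pool.GRD (LbP)
open Pool.FLT (ppt flat_val ppt_near)

variable {m : ℕ}

/-- **No flat natural labels** on any event of the class, if the straight image is full. -/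
theorem img_ev {S : PCl m} {Ψ : Fml m} {c : ℕ → Fin m} {r₀ : ℕ} {κ : Fin m} {D : ℕ}
    {w v a p q r n h d p₁ p₂ eN uN pN : ℝ}
    (hpos : ∀ (τ : ℝ) (J : ℕ) (F : Fam m J) (A : F.Ω → Prop), S.St τ J F A → 0 < Pe F.p A)
    (hcu : c r₀ ∉ (range r₀).image c)
    (H : AlpD S Ψ c r₀ κ D w v a p q r n h d p₁ p₂ eN uN pN) {sa sb ν eu ρu pu : ℝ} {K : ℕ}
    (h1 : p ≤ sa) (h2 : sa ≤ p + q) (h3 : sa ≤ sb) (h4 : sb ≤ p + r) (h5 : sb ≤ ν + pu)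
    (h6 : sb + eN + eu < 1) (h7 : max uN 0 < pu) (h8 : 0 ≤ eu) (h9 : ρu ≤ 1)
    (h10 : max uN 0 + eu < 1) {Cu : ℝ} (hCu : 0 < Cu)
    (hu : Bas S (fun J F A => ∃ B : F.Ω → Prop, Sub B A ∧ Pe F.p A ≤ Cu * Pe F.p B ∧
      ∃ (V₃ : Type) (z₃ : PtT F → V₃) (z₃' : LnT F → V₃)
        (G₃ : V₃ → MvPolynomial (Option (Fin m)) ℝ),
        LbOK F ((range r₀).image c) (c r₀) K ⌊eu * J⌋₊ J ⌊a * J⌋₊ ⌊ρu * J⌋₊ ⌊pu * J⌋₊ B
          z₃ z₃' G₃))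
    {x L : ℝ} (hx : eN ≤ x)
    (hI : Bas S (fun J F A => ∀ (V : Type) (z : PtT F → V) (z' : LnT F → V) (ka : V → ℝ),
      (∀ ω, A ω → z (ptr F J ω) = z' (slam F ⌊a * J⌋₊ ω)) →
      (∀ ω, A ω → |ka (z' (slam F ⌊a * J⌋₊ ω))| ≤ (2 : ℝ) ^ (x * J)) →
      L * J ≤ CH (Pool.Agent.H49.Ent.cond F.p A True)
        (fun ω => ⌊(2 : ℝ) ^ ⌊sb * J⌋₊ *
          (F.x ω κ - ka (z' (slam F ⌊a * J⌋₊ ω)) * F.x ω (c r₀))⌋)
        (fun ω => (ceI ((range r₀).image c) (fun _ => J) (F.x ω),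
          (z' (slam F ⌊a * J⌋₊ ω), F.W ω)))))
    (hend : (1 - h) * (sb - sa) * Real.log 2 + d < L) :
    Bas S (fun J F A => ∀ (V : Type) (z : PtT F → V) (z' : LnT F → V)
      (G : V → MvPolynomial (Option (Fin m)) ℝ),
      NzF Ψ c r₀ κ D D D w v p₁ p₂ eN uN pN J F A V z z' G →
      (∀ ω, A ω → FlG F (c r₀) ⌊a * J⌋₊ ⌊pu * J⌋₊ (2 ^ (-(ν * J)))
        (G (z' (slam F ⌊v * J⌋₊ ω))) ω) → False) := by
  obtain ⟨δ, hδ⟩ : ∃ δ : ℝ, δ = (L - ((1 - h) * (sb - sa) * Real.log 2 + d)) / 2 := ⟨_, rfl⟩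
  have hδ0 : 0 < δ := by rw [hδ]; linarith
  have R := Pool.GRW.bas_part
    (img_row (K := K) hpos hcu H h1 h2 h3 h4 h5 h6 h7 h8 h9 h10 hδ0) hCu
  have I₂ := Pool.GRW.bas_part (Pool.GRW.bas_part hI (two_pos : (0 : ℝ) < 2)) hCu
  refine Bas.mono 1 ((hu.and R).and I₂) ?_
  rintro J hJ F A ⟨⟨⟨B, b1, b2, V₃, z₃, z₃', G₃, hG₃⟩, HR⟩, HI⟩ V z z' G hG hfl
  have hJ0 : (0 : ℝ) < J := by exact_mod_cast hJ
  obtain ⟨B', b3, b4, V₄, z₄, z₄', ka, c1, c2, c3⟩ := HR B b1 b2 V z z' G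
    (NzF.hs H.hs J F A B V z z' G b1 hG) V₃ z₃ z₃' G₃ hG₃ (fun ω hω => hfl ω (b1 ω hω))
  have c4 := HI B b1 b2 B' b3 b4 V₄ z₄ z₄' ka c1 (fun ω _ => (c2 _).trans
    (Real.rpow_le_rpow_of_exponent_le (by norm_num) (mul_le_mul_of_nonneg_right hx hJ0.le)))
  have c5 := c4.trans c3
  have c6 := le_of_mul_le_mul_right c5 hJ0
  linarith

/-- **The straight image over flat labels is not full.** -/
theorem img_void {S : PCl m} {Ψ : Fml m} {c : ℕ → Fin m} {r₀ : ℕ} {κ : Fin m} {D : ℕ}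
    {w v a p q r n h d p₁ p₂ eN uN pN : ℝ} (hne : S.Ne)
    (hpos : ∀ (τ : ℝ) (J : ℕ) (F : Fam m J) (A : F.Ω → Prop), S.St τ J F A → 0 < Pe F.p A)
    (hcu : c r₀ ∉ (range r₀).image c)
    (H : AlpD S Ψ c r₀ κ D w v a p q r n h d p₁ p₂ eN uN pN) {sa sb ν eu ρu pu : ℝ} {K : ℕ}
    (h1 : p ≤ sa) (h2 : sa ≤ p + q) (h3 : sa ≤ sb) (h4 : sb ≤ p + r) (h5 : sb ≤ ν + pu)
    (h6 : sb + eN + eu < 1) (h7 : max uN 0 < pu) (h8 : 0 ≤ eu) (h9 : ρu ≤ 1)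
    (h10 : max uN 0 + eu < 1) {Cb Cu : ℝ} (hCb : 0 < Cb) (hCu : 0 < Cu)
    (hlab : Bas S (fun J F A => ∃ B : F.Ω → Prop, Sub B A ∧ Pe F.p A ≤ Cb * Pe F.p B ∧
      ∃ (V : Type) (z : PtT F → V) (z' : LnT F → V) (G : V → MvPolynomial (Option (Fin m)) ℝ),
        NzF Ψ c r₀ κ D D D w v p₁ p₂ eN uN pN J F B V z z' G ∧
        ∀ ω, B ω → FlG F (c r₀) ⌊a * J⌋₊ ⌊pu * J⌋₊ (2 ^ (-(ν * J)))
          (G (z' (slam F ⌊v * J⌋₊ ω))) ω))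
    (hu : Bas S (fun J F A => ∃ B : F.Ω → Prop, Sub B A ∧ Pe F.p A ≤ Cu * Pe F.p B ∧
      ∃ (V₃ : Type) (z₃ : PtT F → V₃) (z₃' : LnT F → V₃)
        (G₃ : V₃ → MvPolynomial (Option (Fin m)) ℝ),
        LbOK F ((range r₀).image c) (c r₀) K ⌊eu * J⌋₊ J ⌊a * J⌋₊ ⌊ρu * J⌋₊ ⌊pu * J⌋₊ B
          z₃ z₃' G₃))
    {x L : ℝ} (hx : eN ≤ x)
    (hI : Bas S (fun J F A => ∀ (V : Type) (z : PtT F → V) (z' : LnT F → V) (ka : V → ℝ),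
      (∀ ω, A ω → z (ptr F J ω) = z' (slam F ⌊a * J⌋₊ ω)) →
      (∀ ω, A ω → |ka (z' (slam F ⌊a * J⌋₊ ω))| ≤ (2 : ℝ) ^ (x * J)) →
      L * J ≤ CH (Pool.Agent.H49.Ent.cond F.p A True)
        (fun ω => ⌊(2 : ℝ) ^ ⌊sb * J⌋₊ *
          (F.x ω κ - ka (z' (slam F ⌊a * J⌋₊ ω)) * F.x ω (c r₀))⌋)
        (fun ω => (ceI ((range r₀).image c) (fun _ => J) (F.x ω),
          (z' (slam F ⌊a * J⌋₊ ω), F.W ω))))) :
    L ≤ (1 - h) * (sb - sa) * Real.log 2 + d := by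
  by_contra hlt
  push Not at hlt
  have R := Pool.GRW.bas_part
    (img_ev (K := K) hpos hcu H h1 h2 h3 h4 h5 h6 h7 h8 h9 h10 hCu hu hx hI hlt) hCb
  obtain ⟨τ, hτ, J₁, HH⟩ := hlab.and R
  obtain ⟨J, hJ, F, A, hA⟩ := hne τ hτ J₁
  obtain ⟨⟨B, b1, b2, V, z, z', G, hG, hfl⟩, HR⟩ := HH J hJ F A hA
  exact HR B b1 b2 V z z' G hG hfl

/-- A constant against a rate. -/
theorem rate_num {C y : ℝ} (hC : 0 < C) (hy : 0 < y) : ∃ J₁ : ℕ, ∀ J : ℕ, J₁ ≤ J →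
    C * 2 ^ (-(y * J)) ≤ 1 := by
  have hl2 : 0 < Real.log 2 := Real.log_pos one_lt_two
  obtain ⟨J₁, hJ₁⟩ := exists_nat_ge (Real.log C / (y * Real.log 2))
  refine ⟨J₁, fun J hJ => ?_⟩
  have e1 : (J₁ : ℝ) ≤ J := by exact_mod_cast hJ
  have e2 := hJ₁.trans e1
  rw [div_le_iff₀ (by positivity)] at e2
  have p0 : (0 : ℝ) < 2 ^ (y * J) := Real.rpow_pos_of_pos (by norm_num) _
  rw [Real.rpow_neg (by norm_num), ← div_eq_mul_inv, div_le_one p0, ← exp_p2]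
  calc C = Real.exp (Real.log C) := (Real.exp_log hC).symm
    _ ≤ Real.exp (y * J * Real.log 2) := Real.exp_le_exp.2 (by linarith)

/-- **The flatness from the natural variation** of a longer window. -/
theorem flg_of_nvg (D : ℕ) {v a pv pu ν₀ ν eN uN : ℝ} (hv : 0 ≤ v) (hva : v ≤ a) (hpv : 0 ≤ pv)
    (hpp : pv ≤ pu) (hν : ν < ν₀ + (a - v)) (hν' : ν < ν₀ + (pu - pv))
    (heN : 0 ≤ eN) (hun : uN ≤ 1) (hνe : ν + eN + max uN 0 < 1) : ∃ J₁ : ℕ,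
    ∀ {m J : ℕ} {F : Fam m J} {u : Fin m} {g : MvPolynomial (Option (Fin m)) ℝ} {ω : F.Ω}
    (_ : J₁ ≤ J) (_ : g.totalDegree ≤ D)
    (_ : ∀ b : Option (Fin m) → ℝ, (∀ o, |b o - bt F ω o| ≤ 1 / 2 ^ ⌊uN * J⌋₊) → ∀ o,
      |eval b (pderiv o g)| ≤ 2 ^ ⌊eN * J⌋₊)
    (_ : NvG F u ⌊v * J⌋₊ ⌊pv * J⌋₊ (2 ^ (-(ν₀ * J))) g ω),
    FlG F u ⌊a * J⌋₊ ⌊pu * J⌋₊ (2 ^ (-(ν * J))) g ω := by
  obtain ⟨C, hC, HC⟩ := nvg_sc D
  obtain ⟨C', hC', HC'⟩ := ppt_var D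
  obtain ⟨μ, hμ⟩ : ∃ μ : ℝ, μ = min (a - v) (pu - pv) := ⟨_, rfl⟩
  have hμ1 : μ ≤ a - v := by rw [hμ]; exact min_le_left _ _
  have hμ2 : μ ≤ pu - pv := by rw [hμ]; exact min_le_right _ _
  have hμν : 0 < ν₀ + μ - ν := by
    rw [hμ]
    rcases min_cases (a - v) (pu - pv) with ⟨e, -⟩ | ⟨e, -⟩ <;> rw [e] <;> linarith
  obtain ⟨J₁, hJ₁⟩ := rate_num (C := 2 * C) (by linarith) hμν
  obtain ⟨J₂, hJ₂⟩ := rate_num (C := C') (y := 1 - ν - eN - max uN 0) (by linarith) (by linarith)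
  refine ⟨J₁ + J₂, fun {m J F u g ω} hJ hg hlip h => ?_⟩
  have hJ0 : (0 : ℝ) ≤ J := Nat.cast_nonneg J
  have p0 : ∀ x : ℝ, (0 : ℝ) < 2 ^ x := fun x => Real.rpow_pos_of_pos (by norm_num) _
  have mulJ : ∀ {x y : ℝ}, x ≤ y → x * J ≤ y * J := fun h => mul_le_mul_of_nonneg_right h hJ0
  have hrat : ∀ x y : ℝ, 0 ≤ x → μ ≤ y - x → (2 : ℝ) ^ ⌊x * J⌋₊ / 2 ^ ⌊y * J⌋₊ ≤
      2 * 2 ^ (-(μ * J)) := by
    intro x y hx hxy
    calc (2 : ℝ) ^ ⌊x * J⌋₊ / 2 ^ ⌊y * J⌋₊ = 2 ^ ⌊x * J⌋₊ * (1 / 2 ^ ⌊y * J⌋₊) := by ring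
      _ ≤ 2 ^ (x * J) * (2 * 2 ^ (-(y * J))) :=
          mul_le_mul (p2_le (mul_nonneg hx hJ0)) (ip2_le _) (by positivity) (p0 _).le
      _ = 2 * 2 ^ (x * J + -(y * J)) := by
          rw [Real.rpow_add (by norm_num)]
          ring
      _ ≤ 2 * 2 ^ (-(μ * J)) := by
          refine mul_le_mul_of_nonneg_left ?_ (by norm_num)
          refine Real.rpow_le_rpow_of_exponent_le (by norm_num) ?_
          have := mulJ hxy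
          linarith
  have hM := HC h hg (Nat.floor_le_floor (mulJ hva)) (Nat.floor_le_floor (mulJ hpp))
    (hrat v a hv hμ1) (hrat pv pu hpv hμ2)
  have hle : C * 2 ^ (-(ν₀ * J)) * (2 * 2 ^ (-(μ * J))) ≤ 2 ^ (-(ν * J)) := by
    have e1 := hJ₁ J (by omega)
    calc C * 2 ^ (-(ν₀ * J)) * (2 * 2 ^ (-(μ * J))) =
          (2 * C * 2 ^ (-((ν₀ + μ - ν) * J))) * 2 ^ (-(ν * J)) := by
          have e2 : (2 : ℝ) ^ (-(ν₀ * J)) * 2 ^ (-(μ * J)) =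
              2 ^ (-((ν₀ + μ - ν) * J)) * 2 ^ (-(ν * J)) := by
            rw [← Real.rpow_add (by norm_num), ← Real.rpow_add (by norm_num)]
            congr 1
            ring
          calc C * 2 ^ (-(ν₀ * J)) * (2 * 2 ^ (-(μ * J))) =
                2 * C * (2 ^ (-(ν₀ * J)) * 2 ^ (-(μ * J))) := by ring
            _ = _ := by rw [e2]; ring
      _ ≤ 1 * 2 ^ (-(ν * J)) := mul_le_mul_of_nonneg_right e1 (p0 _).le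
      _ = 2 ^ (-(ν * J)) := one_mul _
  refine ⟨fun t ht => (hM.lin t ht).trans hle, ?_, fun y hy => (hM.seg y hy).trans hle⟩
  have h3 := HC' (F := F) (u := u) (ρ := ⌊uN * J⌋₊) (E := 2 ^ ⌊eN * J⌋₊) (ω := ω) hg
    (floor_le hun J) (fun b hb => hlip b hb _)
  refine h3.trans ?_
  have e1 := hJ₂ J (by omega)
  have e3 : (2 : ℝ) ^ ⌊uN * J⌋₊ ≤ 2 ^ (max uN 0 * J) :=
    (pow_le_pow_right₀ (by norm_num) (Nat.floor_le_floor (mulJ (le_max_left uN 0)))).trans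
      (p2_le (mul_nonneg (le_max_right uN 0) hJ0))
  have eJ : (2 : ℝ) ^ J = 2 ^ (J : ℝ) := (Real.rpow_natCast 2 J).symm
  calc C' * 2 ^ ⌊eN * J⌋₊ * (2 ^ ⌊uN * J⌋₊ / 2 ^ J) ≤
        C' * 2 ^ (eN * J) * (2 ^ (max uN 0 * J) / 2 ^ J) := by
        refine mul_le_mul (mul_le_mul_of_nonneg_left (p2_le (mul_nonneg heN hJ0)) (by linarith))
          (div_le_div_of_nonneg_right e3 (by positivity)) (by positivity) (by positivity)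
    _ = (C' * 2 ^ (-((1 - ν - eN - max uN 0) * J))) * 2 ^ (-(ν * J)) := by
        rw [eJ, ← Real.rpow_sub (by norm_num), mul_assoc, ← Real.rpow_add (by norm_num),
          mul_assoc, ← Real.rpow_add (by norm_num)]
        congr 2
        ring
    _ ≤ 1 * 2 ^ (-(ν * J)) := mul_le_mul_of_nonneg_right e1 (p0 _).le
    _ = 2 ^ (-(ν * J)) := one_mul _

/-- **No natural labels with a derivative of natural variation** on any event of the class, if the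
straight image is full. -/
theorem scal_ev {S : PCl m} {Ψ : Fml m} {c : ℕ → Fin m} {r₀ : ℕ} {κ : Fin m} {D : ℕ}
    {w v a p q r n h d p₁ p₂ eN uN pN : ℝ}
    (hpos : ∀ (τ : ℝ) (J : ℕ) (F : Fam m J) (A : F.Ω → Prop), S.St τ J F A → 0 < Pe F.p A)
    (hcu : c r₀ ∉ (range r₀).image c)
    (H : AlpD S Ψ c r₀ κ D w v a p q r n h d p₁ p₂ eN uN pN) {sa sb ν₀ pv eu ρu pu : ℝ} {K : ℕ}
    (h1 : p ≤ sa) (h2 : sa ≤ p + q) (h3 : sa ≤ sb) (h4 : sb ≤ p + r) (h0 : 0 ≤ pv)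
    (hpp : pv ≤ pu) (h5 : sb < ν₀ + (a - v) + pu) (h5' : sb < ν₀ + (pu - pv) + pu)
    (h6 : sb + eN + eu < 1) (h6' : sb + eN + max uN 0 < 1 + pu) (h7 : max uN 0 < pu)
    (h8 : 0 ≤ eu) (h9 : ρu ≤ 1) (h10 : max uN 0 + eu < 1) {Cu : ℝ} (hCu : 0 < Cu)
    (hu : Bas S (fun J F A => ∃ B : F.Ω → Prop, Sub B A ∧ Pe F.p A ≤ Cu * Pe F.p B ∧
      ∃ (V₃ : Type) (z₃ : PtT F → V₃) (z₃' : LnT F → V₃)
        (G₃ : V₃ → MvPolynomial (Option (Fin m)) ℝ),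
        LbOK F ((range r₀).image c) (c r₀) K ⌊eu * J⌋₊ J ⌊a * J⌋₊ ⌊ρu * J⌋₊ ⌊pu * J⌋₊ B
          z₃ z₃' G₃))
    {x L : ℝ} (hx : eN ≤ x)
    (hI : Bas S (fun J F A => ∀ (V : Type) (z : PtT F → V) (z' : LnT F → V) (ka : V → ℝ),
      (∀ ω, A ω → z (ptr F J ω) = z' (slam F ⌊a * J⌋₊ ω)) →
      (∀ ω, A ω → |ka (z' (slam F ⌊a * J⌋₊ ω))| ≤ (2 : ℝ) ^ (x * J)) →
      L * J ≤ CH (Pool.Agent.H49.Ent.cond F.p A True)
        (fun ω => ⌊(2 : ℝ) ^ ⌊sb * J⌋₊ *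
          (F.x ω κ - ka (z' (slam F ⌊a * J⌋₊ ω)) * F.x ω (c r₀))⌋)
        (fun ω => (ceI ((range r₀).image c) (fun _ => J) (F.x ω),
          (z' (slam F ⌊a * J⌋₊ ω), F.W ω)))))
    (hend : (1 - h) * (sb - sa) * Real.log 2 + d < L) :
    Bas S (fun J F A => ∀ (V : Type) (z : PtT F → V) (z' : LnT F → V)
      (G : V → MvPolynomial (Option (Fin m)) ℝ),
      NzF Ψ c r₀ κ D D D w v p₁ p₂ eN uN pN J F A V z z' G →
      (∀ ω, A ω → NvG F (c r₀) ⌊v * J⌋₊ ⌊pv * J⌋₊ (2 ^ (-(ν₀ * J)))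
        (G (z' (slam F ⌊v * J⌋₊ ω))) ω) → False) := by
  obtain ⟨ν, hν⟩ : ∃ ν : ℝ, ν = sb - pu := ⟨_, rfl⟩
  obtain ⟨J₁, hJ₁⟩ := flg_of_nvg (max D D * max 1 D) (ν := ν) (ν₀ := ν₀) (eN := eN) (uN := uN) H.v0 H.va h0 hpp (by linarith)
    (by linarith) H.eN0.le (H.uNn.trans H.n1) (by linarith)
  refine Bas.mono J₁ (img_ev (K := K) hpos hcu H h1 h2 h3 h4 (by linarith : sb ≤ ν + pu) h6 h7
    h8 h9 h10 hCu hu hx hI hend) ?_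
  intro J hJ F A HE V z z' G hG hnv
  refine HE V z z' G hG fun ω hω => ?_
  exact hJ₁ hJ (hG.lb.deg _) (hG.lb.lip ω hω) (hnv ω hω)

/-- **The straight image over labels with a derivative of natural variation is not full.** -/
theorem scal_void {S : PCl m} {Ψ : Fml m} {c : ℕ → Fin m} {r₀ : ℕ} {κ : Fin m} {D : ℕ}
    {w v a p q r n h d p₁ p₂ eN uN pN : ℝ} (hne : S.Ne)
    (hpos : ∀ (τ : ℝ) (J : ℕ) (F : Fam m J) (A : F.Ω → Prop), S.St τ J F A → 0 < Pe F.p A)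
    (hcu : c r₀ ∉ (range r₀).image c)
    (H : AlpD S Ψ c r₀ κ D w v a p q r n h d p₁ p₂ eN uN pN) {sa sb ν₀ pv eu ρu pu : ℝ} {K : ℕ}
    (h1 : p ≤ sa) (h2 : sa ≤ p + q) (h3 : sa ≤ sb) (h4 : sb ≤ p + r) (h0 : 0 ≤ pv)
    (hpp : pv ≤ pu) (h5 : sb < ν₀ + (a - v) + pu) (h5' : sb < ν₀ + (pu - pv) + pu)
    (h6 : sb + eN + eu < 1) (h6' : sb + eN + max uN 0 < 1 + pu) (h7 : max uN 0 < pu)
    (h8 : 0 ≤ eu) (h9 : ρu ≤ 1) (h10 : max uN 0 + eu < 1) {Cb Cu : ℝ} (hCb : 0 < Cb)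
    (hCu : 0 < Cu)
    (hlab : Bas S (fun J F A => ∃ B : F.Ω → Prop, Sub B A ∧ Pe F.p A ≤ Cb * Pe F.p B ∧
      ∃ (V : Type) (z : PtT F → V) (z' : LnT F → V) (G : V → MvPolynomial (Option (Fin m)) ℝ),
        NzF Ψ c r₀ κ D D D w v p₁ p₂ eN uN pN J F B V z z' G ∧
        ∀ ω, B ω → NvG F (c r₀) ⌊v * J⌋₊ ⌊pv * J⌋₊ (2 ^ (-(ν₀ * J)))
          (G (z' (slam F ⌊v * J⌋₊ ω))) ω))
    (hu : Bas S (fun J F A => ∃ B : F.Ω → Prop, Sub B A ∧ Pe F.p A ≤ Cu * Pe F.p B ∧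
      ∃ (V₃ : Type) (z₃ : PtT F → V₃) (z₃' : LnT F → V₃)
        (G₃ : V₃ → MvPolynomial (Option (Fin m)) ℝ),
        LbOK F ((range r₀).image c) (c r₀) K ⌊eu * J⌋₊ J ⌊a * J⌋₊ ⌊ρu * J⌋₊ ⌊pu * J⌋₊ B
          z₃ z₃' G₃))
    {x L : ℝ} (hx : eN ≤ x)
    (hI : Bas S (fun J F A => ∀ (V : Type) (z : PtT F → V) (z' : LnT F → V) (ka : V → ℝ),
      (∀ ω, A ω → z (ptr F J ω) = z' (slam F ⌊a * J⌋₊ ω)) →
      (∀ ω, A ω → |ka (z' (slam F ⌊a * J⌋₊ ω))| ≤ (2 : ℝ) ^ (x * J)) →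
      L * J ≤ CH (Pool.Agent.H49.Ent.cond F.p A True)
        (fun ω => ⌊(2 : ℝ) ^ ⌊sb * J⌋₊ *
          (F.x ω κ - ka (z' (slam F ⌊a * J⌋₊ ω)) * F.x ω (c r₀))⌋)
        (fun ω => (ceI ((range r₀).image c) (fun _ => J) (F.x ω),
          (z' (slam F ⌊a * J⌋₊ ω), F.W ω))))) :
    L ≤ (1 - h) * (sb - sa) * Real.log 2 + d := by
  by_contra hlt
  push Not at hlt
  have R := Pool.GRW.bas_part (scal_ev (K := K) hpos hcu H h1 h2 h3 h4 h0 hpp h5 h5' h6 h6' h7 h8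
    h9 h10 hCu hu hx hI hlt) hCb
  obtain ⟨τ, hτ, J₁, HH⟩ := hlab.and R
  obtain ⟨J, hJ, F, A, hA⟩ := hne τ hτ J₁
  obtain ⟨⟨B, b1, b2, V, z, z', G, hG, hfl⟩, HR⟩ := HH J hJ F A hA
  exact HR B b1 b2 V z z' G hG hfl

/-- The charts of `u` from the data to upgrade them. -/
theorem hu_upg {S : PCl m} {C₀ : ℝ} (htm : TmC S C₀) {I : Finset (Fin m)} {k : Fin m} {K : ℕ}
    {a ρu pu eu σ : ℝ} (hσ : 0 < σ) (h : Upg S I k K a ρu pu eu)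
    (hch : Bas S (fun J F A => ∃ (P : ℕ) (V : Type) (z : PtT F → V) (z' : LnT F → V)
      (G : V → MvPolynomial (Option (Fin m)) ℝ), LbP F I k K J ⌊a * J⌋₊ P A z z' G ∧
        (pu + σ) * J ≤ P)) :
    Bas S (fun J F A => ∃ B : F.Ω → Prop, Sub B A ∧ Pe F.p A ≤ 4 * Pe F.p B ∧
      ∃ (V₃ : Type) (z₃ : PtT F → V₃) (z₃' : LnT F → V₃)
        (G₃ : V₃ → MvPolynomial (Option (Fin m)) ℝ),
        LbOK F I k K ⌊eu * J⌋₊ J ⌊a * J⌋₊ ⌊ρu * J⌋₊ ⌊pu * J⌋₊ B z₃ z₃' G₃) := by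
  refine Bas.mono 0 ((h.up htm hσ).and hch) ?_
  rintro J - F A ⟨HU, P, V, z, z', G, hG, hP⟩
  obtain ⟨B, b1, b2, b3⟩ := HU P V z z' G hG hP
  exact ⟨B, b1, by linarith, V, z, z', G, b3⟩

end Pool.FLN33
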